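import Pool.Agent.W23.SG.Defs
import Pool.Agent.W23.PL.Defs

/-!
KT project (helper23): k-tuples of linear forms at the elements of arbitrary sets of primes.

Every `St_X` below is the statement of one task; the doc comment is its complete proof.  The file of
a task is `Pool/Agent/W<yourseat>/KT/<Name>.lean`, the theorem has the name given in the comment.
-/

namespace Pool.Agent.W23.KT

open Finset
open Pool.Agent.H442R2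
open Pool.Agent.H442R2.KF
open Pool.Agent.W23.DC
open Pool.Agent.W23.SG

/-- the forms `a + b n`: coprime, `|a| ≤ N^M`, `1 ≤ b ≤ N^M` -/
structure FoM (M N : ℕ) (L : ℤ × ℕ) : Prop where
  a : |(L.1 : ℝ)| ≤ (N : ℝ) ^ M
  b1 : 1 ≤ L.2
  b2 : (L.2 : ℝ) ≤ (N : ℝ) ^ M
  cop : Int.gcd L.1 L.2 = 1

/-- systems of `k` forms -/
structure Sys (k M N : ℕ) (S : Finset (ℤ × ℕ)) : Prop where
  card : S.card = k
  fo : ∀ L ∈ S, FoM M N L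

/-- the product of the forms (`SG.lf L n = a + b n`) -/
def Fp (S : Finset (ℤ × ℕ)) (n : ℤ) : ℤ := ∏ L ∈ S, lf L n

/-- good primes: the roots of the forms exist and are distinct modulo `l` -/
def gp (S : Finset (ℤ × ℕ)) (l : ℕ) : Prop :=
  (∀ L ∈ S, ¬ l ∣ L.2) ∧ ∀ L ∈ S, ∀ L' ∈ S, L ≠ L' → ¬ (l : ℤ) ∣ L.1 * L'.2 - L'.1 * L.2

/-- the moduli: squarefree, `1 < d ≤ X`, all prime factors good and larger than `y` -/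
def Mo (y : ℝ) (X : ℕ) (S : Finset (ℤ × ℕ)) (d : ℕ) : Prop :=
  1 < d ∧ d ≤ X ∧ Squarefree d ∧ ∀ p : ℕ, p.Prime → p ∣ d → y < (p : ℝ) ∧ gp S p

/-- `k^ω(d)` -/
noncomputable def kw (k d : ℕ) : ℝ := (k : ℝ) ^ d.primeFactors.card

open Classical in
/-- `1_{d | m} - k^ω(d)/d` -/
noncomputable def dk (k d : ℕ) (m : ℤ) : ℝ := (if (d : ℤ) ∣ m then 1 else 0) - kw k d / d

/-- coefficients -/
structure CofK (y : ℝ) (X : ℕ) (S : Finset (ℤ × ℕ)) (c : ℕ → ℝ) : Prop where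
  bd : ∀ d, |c d| ≤ 1
  supp : ∀ d, c d ≠ 0 → Mo y X S d

noncomputable def RK (k : ℕ) (c : ℕ → ℝ) (X : ℕ) (S : Finset (ℤ × ℕ)) (n : ℤ) : ℝ :=
  ∑ d ∈ Icc 1 X, c d * dk k d (Fp S n)

/-- the same, zero if one of the forms vanishes -/
noncomputable def rK (k : ℕ) (c : ℕ → ℝ) (X : ℕ) (S : Finset (ℤ × ℕ)) (n : ℤ) : ℝ :=
  if Fp S n = 0 then 0 else RK k c X S n

open Classical in
/-- the discrepancy of `f` on the primes up to `N` with `d ∣ ∏ L(p)` -/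
noncomputable def DK (k : ℕ) (f : ℕ → ℝ) (N : ℕ) (S : Finset (ℤ × ℕ)) (d : ℕ) : ℝ :=
  (∑ p ∈ (Icc 1 N).filter (fun p : ℕ => p.Prime ∧ (d : ℤ) ∣ Fp S p), f p) -
    (∑ p ∈ (Icc 1 N).filter Nat.Prime, f p) * (kw k d / (Nat.totient d : ℝ))

/-- **RSK** (theorem `RSK : St_RSK`).  The roots of the product.

Proof.  Induction over the prime factorisation of the squarefree `d` (`Nat.recOnPosPrimePosCoprime`,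
or induction on `d` with `d = l d'`).  `d = 1`: `Ω = {0}`.  `d = l` prime: `l ∣ Fp S n` iff
`l ∣ a + b n` for some `(a, b) ∈ S` iff `n ≡ s_L` for `s_L ∈ range l`, `s_L ≡ -a b⁻¹ (mod l)`
(`l ∤ b`), and `s_L ≠ s_L'` for `L ≠ L'` as `l ∤ a b' - a' b`; `Ω` is the image of `S`.
`d = d₁ d₂` coprime: `Ω` is the set of the Chinese remainders (`Nat.chineseRemainder`) of the pairs of
`Ω₁ × Ω₂`; `kw k (d₁ d₂) = kw k d₁ kw k d₂`. -/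
def St_RSK : Prop := ∀ (k : ℕ) (S : Finset (ℤ × ℕ)), S.card = k → ∀ d : ℕ, 1 ≤ d → Squarefree d →
    (∀ p : ℕ, p.Prime → p ∣ d → gp S p) → ∃ Ω : Finset ℕ, (Ω.card : ℝ) = kw k d ∧
      (∀ s ∈ Ω, s < d) ∧ ∀ n : ℤ, (d : ℤ) ∣ Fp S n ↔ ∃ s ∈ Ω, (d : ℤ) ∣ n - s

/-- **PBK** (theorem `PBK (hRA : BX.St_RA) : St_PBK`; copy and adapt `Pool/Agent/W973/SG/PBL.lean`).

Proof.  `0 < |Fp S n| ≤ ∏ (N^M + N^M |n|) ≤ N^((M+1) k) (1 + |n|/N)^k`.  With `y = N^ε`, the number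
of `y`-rough divisors is at most `2^(log|Fp S n|/(ε log N)) ≤ exp((M+1) k/ε)
(1 + |n|/N)^(k/(ε log N)) ≤ C (1 + |n|/N)^(1/4)` for `ε log N ≥ 4 k`.  Second part: for rough `d ≤ N`:
`ω(d) ≤ 1/ε`, so `kw k d ≤ (k + 1)^(1/ε) =: C₁`, and `|RK| ≤ #rd + C₁ ∑_{d rough ≤ N} 1/d` (RA). -/
def St_PBK : Prop := ∀ (k M : ℕ) (ε : ℝ), 0 < ε → ∃ (N₀ : ℕ) (C : ℝ), 0 < C ∧ ∀ (N X : ℕ),
    N₀ ≤ N → X ≤ N → ∀ S : Finset (ℤ × ℕ), Sys k M N S →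
    (∀ n : ℤ, Fp S n ≠ 0 →
      ((BX.rd ((N : ℝ) ^ ε) X (Fp S n)).card : ℝ) ≤ C * (1 + |(n : ℝ)| / N) ^ (1 / 4 : ℝ)) ∧
    ∀ c : ℕ → ℝ, CofK ((N : ℝ) ^ ε) X S c → ∀ n : ℤ,
      |rK k c X S n| ≤ C * (1 + |(n : ℝ)| / N) ^ (1 / 4 : ℝ)

open Classical in
/-- **NCK** (theorem `NCK (hPBK : St_PBK) (hGS : BX.St_GS) : St_NCK`; copy and adapt
`Pool/Agent/W137/SG/NCL.lean`).  Pairs of moduli with a common factor.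

Proof.  If `ε ≥ 1` the set `roughs` is empty (`X ≤ N`).  Small `N` (`N < N₀(ε, k, M)`): the inner sum
is `≤ ∑ Wt ≤ 4 (N + 1)`, at most `N²` pairs.  `N ≥ N₀`: the left side is
`∑'_n Wt(n) #{(d, d') : d | Fp S n, d' | Fp S' n, d, d' rough ≤ X, (d, d') > 1}`.
Let `Fp S n ≠ 0 ≠ Fp S' n`.  If there is a pair, a prime `l > N^ε` divides `Fp S n` and `Fp S' n`, so
there are `L = (a, b) ∈ S`, `L' = (a', b') ∈ S'` with `l ∣ L(n)`, `l ∣ L'(n)`, hence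
`l ∣ Δ = a b' - a' b = b' L(n) - b L'(n)`, and `Δ ≠ 0` as `L ≠ L'` are coprime with `b, b' ≥ 1`
(`a b' = a' b` gives `b = b'`), `|Δ| ≤ 2 N^(2M)`.  The number of pairs `(d, d')` is
`≤ #rd #rd' ≤ C² (1 + |n|/N)^(1/2)`.  `l ∣ L(n)` implies `l ∤ b` (else `l | a`), so these `n` lie in one
class `n_l (mod l)`, and they contribute at most `∑_{L, L'} ∑_{l | Δ, l > N^ε} ∑_{l | n - n_l}
C² Wt_N(n) (1 + |n|/N) ≤ ∑ 2 C² ∑_{l | n - n_l} Wt_{2N}(n) ≤ ∑ 8 C² (2N/l + 1) ≤ C' (N^(1-ε) + 1)`;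
the number of `(L, L', l)` is `≤ k² (2M + 1)/ε`.
`Fp S n = 0`: at most `k` values `n`, `Wt(n) (1 + |n|/N)^(1/4) ≤ 2`; then `Fp S' n ≠ 0` (`L(n) = 0` and
`gcd = 1` give `b = 1`, `a = -n`; so `L(n) = L'(n) = 0` implies `L = L'`, but `S, S'` are disjoint):
at most `X` values `d` and `≤ C (1 + |n|/N)^(1/4)` values `d'`; the same for `Fp S' n = 0`. -/
def St_NCK : Prop := ∀ (k M : ℕ) (ε : ℝ), 0 < ε → ∃ C : ℝ, 0 < C ∧ ∀ (N X : ℕ), 2 ≤ N → X ≤ N →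
    ∀ S S' : Finset (ℤ × ℕ), Sys k M N S → Sys k M N S' → Disjoint S S' →
    ∑ d ∈ BX.roughs ((N : ℝ) ^ ε) X,
      ∑ d' ∈ (BX.roughs ((N : ℝ) ^ ε) X).filter (fun d' => ¬ Nat.Coprime d d'),
        ∑' n : ℤ, (if ((d : ℤ) ∣ Fp S n ∧ (d' : ℤ) ∣ Fp S' n) then Wt N n else 0) ≤
      C * ((N : ℝ) ^ (1 - ε) + X)

/-- **TTK** (theorem
`TTK (hPA : St_PA) (hRSK : St_RSK) (hPBK : St_PBK) (hNCK : St_NCK) (hRB : BX.St_RB) : St_TTK`;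
copy and adapt `Pool/Agent/W177/SG/TTL.lean`).  The off-diagonal terms.

Proof.  WLOG `θ ≥ 1/4`, `ε ≤ 1`.  `ε₀ = min (ε/16) ((1 - 2θ)/8)`, `δ = (1 - 2θ)/2`.  Small `N`:
`nuS ≤ z² ≤ N²`, `|RK| ≤ C X ≤ C N` (`kw k d ≤ d^k ≤ N^k`, crude), `∑ Wt ≤ 4 (N+1)`: absorb in `C`.
Let `N ≥ N₀`; then `kw k d ≤ C₁ = (k+1)^(1/ε)` for the moduli.
(1) `∑' Wt ν R_S R_{S'}`.  Expand `ν(n) = ∑_{q₁,q₂ ≤ z} λ λ 1_{q | n}`, `q = lcm q₁ q₂`, and the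
product: `∑_{q₁,q₂} λλ ∑_{d,d'} c_d c'_{d'} (S(q,d,d') - S(q,d,1) kw(d')/d' - S(q,1,d') kw(d)/d +
S(q,1,1) kw(d) kw(d')/(dd'))`, `S(q,d,d') = ∑' Wt 1_{q | n} 1_{d | Fp S n} 1_{d' | Fp S' n}`.  Only
odd `q ≤ z² ≤ N^(2ε₀)` with prime factors `≤ z < N^ε` matter: `q` is coprime to the rough `d, d'`.
 - `(d, d') = 1`: by RSK `d | Fp S n` iff `d | n - s` for one of `kw k d` classes `s`, similarly `d'`;
   Chinese remainder theorem: each pair of classes gives `q d d' | n - c`, and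
   `q d d' ≤ N^(2ε₀ + 2θ) ≤ N^(1-δ)`, so by PA `S(q,d,d') = kw(d) kw(d') N/(qdd') + O(C₁² N^(-5))`; the
   same for the three others, and the main terms cancel; total `≤ 4 C₁² X² N^(-5) ≤ 1`.
 - `(d, d') > 1`: `|bracket| ≤ S(1,d,d') + 3 C₁² (N + 1)/(dd')`; the sum is
   `≤ C (N^(1-ε) + X) + 3 C₁² (N+1) C N^(-ε/2)` (NCK, RB; the moduli are elements of `roughs`).
 The number of pairs `(q₁, q₂)` is `z² ≤ N^(2ε₀)`: (1) is `≤ C N^(2ε₀) (N^(1-ε/2) + N^θ) ≤ C N^(1-η)`.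
(2) `∑' Wt ν r_S r_{S'} = (1) -` (the at most `2k` values `n` with `Fp S n = 0` or `Fp S' n = 0`): if
`Fp S n = 0` then `Fp S' n ≠ 0` (see NCK), `|R_S(n)| ≤ C₁ X + X`, `|R_{S'}(n)| Wt(n) ≤ 2 C` (PBK),
`ν(n) ≤ z²`. -/
def St_TTK : Prop := ∀ (k M : ℕ) (θ ε : ℝ), θ < 1 / 2 → 0 < ε → ∃ (ε₀ η C : ℝ), 0 < ε₀ ∧ 0 < η ∧
    0 < C ∧ ∀ (N z X : ℕ), 2 ≤ N → 1 ≤ z → (z : ℝ) ≤ (N : ℝ) ^ ε₀ → (X : ℝ) ≤ (N : ℝ) ^ θ →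
    ∀ lam : ℕ → ℝ, BX.SW z lam → ∀ S S' : Finset (ℤ × ℕ), Sys k M N S → Sys k M N S' →
    Disjoint S S' → ∀ c c' : ℕ → ℝ, CofK ((N : ℝ) ^ ε) X S c → CofK ((N : ℝ) ^ ε) X S' c' →
    |∑' n : ℤ, Wt N n * BX.nuS lam z n * (rK k c X S n * rK k c' X S' n)| ≤
      C * (N : ℝ) ^ (1 - η)

/-- **BLK** (theorem
`BLK (hTTK : St_TTK) (hPBK : St_PBK) (hGS : BX.St_GS) (hGW : BX.St_GW) (hWX : BX.St_WX)
(hRT : BX.St_RT) : St_BLK`; copy and adapt `Pool/Agent/W74/SG/BLFa.lean`, `BLF.lean`: the duality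
`BX.DU` for an arbitrary index type is proved there).

Proof.  As BLF.  (1) Diagonal: by PBK `rK² ≤ C² (1 + |n|/N)`.  (2) Prime side: for `T = T S` with
signs `c_d = sign DK` (and `0` outside `T S`; then `CofK` with `X = ⌊N^θ⌋`),
`∑_{d ∈ T} |DK f N S d| = ∑_{p ≤ N} f p RK(p) - (∑_p f p) ∑_d c_d kw(d) (1/φ(d) - 1/d)`, the last term
is `≤ N C₁ C N^(-ε/2)` (`kw k d ≤ C₁ = (k+1)^(1/ε)` for rough `d ≤ N`; RT), the primes `p ≤ z` with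
`Fp S p ≠ 0` contribute `≤ 2 C z` (PBK), the at most `k` primes with `Fp S p = 0` contribute
`≤ k (C₁ + 1) X`.  (3) as in BLF; TTK for `S ≠ S'` (disjoint by hypothesis). -/
def St_BLK : Prop := ∀ (k M : ℕ) (θ ε : ℝ), θ < 1 / 2 → 0 < ε → ∃ (η C : ℝ), 0 < η ∧ 0 < C ∧
    ∀ N : ℕ, 2 ≤ N → ∀ f : ℕ → ℝ, (∀ p, |f p| ≤ 1) → ∀ A : Finset (Finset (ℤ × ℕ)),
    (∀ S ∈ A, Sys k M N S) → (∀ S ∈ A, ∀ S' ∈ A, S ≠ S' → Disjoint S S') →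
    ∀ T : Finset (ℤ × ℕ) → Finset ℕ, (∀ S ∈ A, ∀ d ∈ T S, Mo ((N : ℝ) ^ ε) ⌊(N : ℝ) ^ θ⌋₊ S d) →
    ∑ S ∈ A, (∑ d ∈ T S, |DK k f N S d|) ^ 2 ≤
      C * (Q2 f N * (N / Real.log N) + A.card * (N : ℝ) ^ (2 - η))

open Classical in
/-- **BHK** (theorem `BHK : St_BHK`; see `Pool/Agent/W308/PL/FLW1.lean`, `FLW2.lean` (coefficients
`lc`, `ld`, `Cth`, `Cdl`, `cf`, theorems `fact`, `cf_sum`, `sum_Cth`, `sum_Cdl`, `core`) for all the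
combinatorics of Brun–Hooley).  A lower bound sieve of dimension `k`.

Proof.  `xx P m = 1` if no `p ∈ P` divides `m` (`PL.xx`).  For an integer `b ≥ 1` (depending on `k`
only, chosen below) put `ζ = 49/(100 (4b + 6))`.  Blocks `P_j = {p ∈ P : ζ 2^-(j+1) ≤ tt N p < ζ 2^-j}`,
`0 ≤ j < J`, `J = ⌈log₂(ζ/ε₁)⌉`, `b_j = b + j`, `T_j(m) = ∑_{U ⊆ P_j, |U| ≤ 2b_j} (-1)^|U| 1_{U | m}`,
`E_j(m) = ∑_{|U| = 2b_j + 1} 1_{U | m}`, `x_j = 1` if no element of `P_j` divides `m`.  As in FLW: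
`∏_j T_j - ∑_i E_i ∏_{j ≠ i} T_j ≤ ∏ x_j = xx P m`.  `th` is the coefficient function of the left
side: `|th e| ≤ J + 1 =: U`, support squarefree, composed of primes of `P`, and
`log e ≤ ∑_j (2b_j + 1) 2^-j ζ log N ≤ (4b + 6) ζ log N = (49/100) log N`.
Main term, with `g(p) = k/(p-1)` (`kw k e/φ(e) = ∏_{p | e} g(p)` for squarefree `e`):
`∏_j T̂_j - ∑_i Ê_i ∏_{j ≠ i} T̂_j`, `T̂_j ≥ V_j = ∏_{p ∈ P_j} (1 - g(p)) ≥ e^(-2 L_j)`,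
`L_j = ∑_{P_j} g ≤ k (log 2 + 1/10) ≤ k` (Mertens, `DC.St_MP` = `Pool.Agent.W378.DC.MP`, `N ≥ N₀`, and
`g(p) ≤ 1/2`), `Ê_i ≤ L_i^(2b_i+1)/(2b_i+1)!`, so it is at least
`∏_j T̂_j (1 - ∑_i Ê_i/V_i) ≥ (1/2) ∏ V_j` if `∑_i e^(2k) k^(2b+2i+1)/(2b+2i+1)! ≤ 1/2`, true for
`b ≥ b(k)`.  `∏_j V_j = ∏_{p ∈ P} (1 - g(p)) ≥ ∏_{p ∈ pr N ε₁ ζ} (1 - g(p)) ≥
exp(-∑ (g + g²)) ≥ (1/2) exp(-k log(ζ/ε₁) - 1) = c' (ε₁/ζ)^k` (Mertens up to `η = 1/(2k)`, and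
`∑ g² ≤ 1/4` for `N ≥ N₀`). -/
def St_BHK : Prop := ∀ k : ℕ, 1 ≤ k → ∃ ζ c : ℝ, 0 < ζ ∧ ζ ≤ 1 / 10 ∧ 0 < c ∧ ∀ ε₁ : ℝ, 0 < ε₁ →
    ε₁ < ζ → ∃ (N₀ : ℕ) (U : ℝ), 0 < U ∧ ∀ N : ℕ, N₀ ≤ N → ∀ P : Finset ℕ, P ⊆ pr N ε₁ ζ →
    ∃ th : ℕ → ℝ, (∀ e, |th e| ≤ U) ∧
      (∀ e, th e ≠ 0 → Squarefree e ∧ (e : ℝ) ≤ (N : ℝ) ^ (49 / 100 : ℝ) ∧
        ∀ p : ℕ, p.Prime → p ∣ e → p ∈ P) ∧
      (∀ m : ℤ, ∑ e ∈ Icc 1 ⌊(N : ℝ) ^ (49 / 100 : ℝ)⌋₊, th e * (if (e : ℤ) ∣ m then 1 else 0) ≤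
        PL.xx P m) ∧
      c * ε₁ ^ k ≤ ∑ e ∈ Icc 1 ⌊(N : ℝ) ^ (49 / 100 : ℝ)⌋₊, th e * (kw k e / (Nat.totient e : ℝ))

open Classical in
/-- **SPK** (theorem `SPK : St_SPK`; compare `Pool/Agent/W342/DC/SP.lean`: Brun–Titchmarsh etc.).
Smooth parts of linear forms at primes, arbitrary power of `ε₁/ε`.

Proof.  WLOG `j ≥ 1`.  `y = N^ε₁`.  Let `p` be counted, `n = |L(p)|`, `L = (a, b)`.  At most `y` of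
the `p` are `≤ y`; let `p > y`.  Then `∑_{l < y} v_l(n) log l > ε log N`, so `R = ∑_{l < y, l | n} log l >
(ε/2) log N` or `R' = ∑_{l < y} ∑_{i ≥ 2, l^i | n} log l > (ε/2) log N`.  Note: a prime `l | n` does not
divide `b` (else `l | a`) and, for `l < y < p`, not `a` (else `l | b p`); so for a product `e` of such
primes the `p` with `e | L(p)` lie in one class modulo `e`, coprime to `e`.
(a) `R > (ε/2) log N`.  Blocks `B_i = {l : y^(2^-(i+1)) ≤ l < y^(2^-i)}`, `i ≥ 0`, `2 ≤ y^(2^-i)`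
(finitely many).  As `∑_i 1/((i+1)(i+2)) = 1`, there is `i` with `∑_{l ∈ B_i, l | n} log l >
(ε/2) log N/((i+1)(i+2))`; each `log l < 2^-i ε₁ log N`, so more than
`r_i = (ε/(2ε₁)) 2^i/((i+1)(i+2))` elements of `B_i` divide `n`, hence at least `s_i = ⌈r_i⌉ ≥ 1`.  The
products `e` of `s_i` elements of `B_i` are `≤ N^(ε₁ 2^-i (r_i + 1)) ≤ N^(ε/4 + ε₁) ≤ N^(3/8)`, so by
Brun–Titchmarsh the number of `p` is `≤ ∑_e C N/(φ(e) log N) ≤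
(C N/log N) (∑_{l ∈ B_i} 1/(l-1))^(s_i)/s_i! ≤ (C N/log N) C₁^(s_i)/s_i!` (`C₁` absolute, Mertens
`Helper256.KM.mertens_upper/lower`; `l - 1 ≥ l/2`), and `C₁^s/s! ≤ C_j s^(-j) ≤ C_j r_i^(-j)`
(`s ≥ r_i`), so the sum over `i` is at most
`(C C_j N/log N) (2ε₁/ε)^j ∑_i ((i+1)(i+2)/2^i)^j ≤ C'_j (ε₁/ε)^j N/log N` (`j ≥ 1`).
(b) `R' > (ε/2) log N`.  For `l < y` let `i_l` be minimal with `l^(i_l) > N^(1/4)` (then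
`l^(i_l) ≤ N^(3/8)`).  The `p ≤ N` with `l^(i_l) | L(p)` for some `l < y`: at most
`∑_{l < y} (N/l^(i_l) + 1) ≤ 2 y N^(3/4) ≤ 2 N^(7/8)` (one class).  For the others
`∑_p R'(p) ≤ ∑_{l < y, i ≥ 2, l^i ≤ N^(1/4)} log l #{p : l^i | L(p)} ≤
(C N/log N) ∑_{l, i ≥ 2} log l/φ(l^i) ≤ C N/log N`, so their number is `≤ 2 C N/(ε log² N)`, which is
`≤ (ε₁/ε)^j N/log N` for `N ≥ N₀(ε, ε₁, j)`. -/
def St_SPK : Prop := ∀ M j : ℕ, ∃ C : ℝ, 0 < C ∧ ∀ ε₁ ε : ℝ, 0 < ε₁ → ε₁ ≤ 1 / 8 → 0 < ε → ε ≤ 1 →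
    ∃ N₀ : ℕ, ∀ N : ℕ, N₀ ≤ N → ∀ L : ℤ × ℕ, FoM M N L →
    (((Icc 1 N).filter (fun p : ℕ => p.Prime ∧ lf L p ≠ 0 ∧ ∃ m : ℕ, m ∣ (lf L p).natAbs ∧
      (∀ l : ℕ, l.Prime → l ∣ m → (l : ℝ) < (N : ℝ) ^ ε₁) ∧ (N : ℝ) ^ ε < m)).card : ℝ) ≤
      C * (ε₁ / ε) ^ j * (N / Real.log N)

end Pool.Agent.W23.KT
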