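import Pool.Agent.W23.KT.Fin3
import Pool.Agent.W721.KT.RSK
import Pool.Agent.W82.KT.PBK
import Pool.Agent.W358.KT.NCK
import Pool.Agent.W45.KT.TTK
import Pool.Agent.W363.KT.BLK
import Pool.Agent.W762.KT.BHK
import Pool.Agent.W54.KT.SPK
import Pool.Agent.W23.SG.All

/-!
KT project (helper23): assembly.
-/

namespace Pool.Agent.W23.KT

open Finset
open Pool.Agent.H442R2
open Pool.Agent.W23.DC
open Pool.Agent.W23.SG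

theorem PBK_thm : St_PBK := W82.KT.PBK BX.RA
theorem NCK_thm : St_NCK := W358.KT.NCK PBK_thm BX.GS
theorem TTK_thm : St_TTK := W45.KT.TTK W488.SG.PA W721.KT.RSK PBK_thm NCK_thm BX.RB
theorem BLK_thm : St_BLK := W363.KT.BLK TTK_thm PBK_thm BX.GS BX.GW_thm BX.WX BX.RT

theorem sparse_thm (k M : ℕ) (hk : 1 ≤ k) : ∃ r : ℕ, 1 ≤ r ∧
    ∀ ε : ℝ, 0 < ε → ∃ c C η : ℝ, 0 < c ∧ 0 < η ∧ ∀ X : ℕ, 2 ≤ X → ∀ A : Finset ℕ,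
      (∀ p ∈ A, p.Prime ∧ p ≤ X) → (X : ℝ) ^ (1 - η) ≤ A.card →
      ∃ H : Finset (ℤ × ℕ), (H.card : ℝ) ≤ C * (X / (A.card * Real.log X)) ∧
        ∀ S, Sys k M X S → Disjoint S H → c * A.card ≤ (G1 A X ε r S).card :=
  sparseK BLK_thm W762.KT.BHK k M hk

theorem dense_thm (k M : ℕ) (hk : 1 ≤ k) :
    ∃ r : ℕ, 1 ≤ r ∧ ∀ δ ε : ℝ, 0 < δ → 0 < ε → ∃ (c : ℝ) (K : ℕ), 0 < c ∧ ∀ X : ℕ, 2 ≤ X →
      ∀ A : Finset ℕ, (∀ p ∈ A, p.Prime ∧ p ≤ X) → δ * (X / Real.log X) ≤ A.card →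
      ∃ H : Finset (ℤ × ℕ), H.card ≤ K ∧
        ∀ S, Sys k M X S → Disjoint S H → c * A.card ≤ (G2 A X ε r S).card :=
  denseK BLK_thm W762.KT.BHK W54.KT.SPK k M hk

end Pool.Agent.W23.KT
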