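import Pool.Agent.W23.KT.Fin2

/-!
KT project (helper23): dense sets of primes.
-/

namespace Pool.Agent.W23.KT

open Finset Filter
open Pool.Agent.H442R2
open Pool.Agent.H442R2.KF
open Pool.Agent.W23.DC
open Pool.Agent.W23.SG

/-- few primes with a small value of the form -/
theorem small_card {L : ℤ × ℕ} (hb : 1 ≤ L.2) (A : Finset ℕ) {Y : ℝ} (hY : 0 ≤ Y) :
    ((A.filter (fun p : ℕ => ((lf L p).natAbs : ℝ) ≤ Y)).card : ℝ) ≤ 2 * Y + 1 := by
  classical
  have h1 : (A.filter (fun p : ℕ => ((lf L p).natAbs : ℝ) ≤ Y)).card ≤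
      (Finset.Icc (-(⌊Y⌋₊ : ℤ)) ⌊Y⌋₊).card := by
    apply Finset.card_le_card_of_injOn (fun p : ℕ => lf L p)
    · intro p hp
      rw [Finset.mem_coe, mem_filter] at hp
      have h2 : (lf L p).natAbs ≤ ⌊Y⌋₊ := Nat.le_floor hp.2
      have h3 : |lf L p| ≤ (⌊Y⌋₊ : ℤ) := by
        rw [Int.abs_eq_natAbs]
        exact_mod_cast h2
      rw [Finset.mem_coe, Finset.mem_Icc]
      exact abs_le.1 h3
    · intro p _ q _ h
      have h4 : lf L p - lf L q = (L.2 : ℤ) * ((p : ℤ) - q) := by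
        unfold lf
        ring
      simp only at h
      rw [h, sub_self] at h4
      rcases mul_eq_zero.1 h4.symm with h2 | h2
      · exfalso
        have h3 : L.2 = 0 := by exact_mod_cast h2
        omega
      · omega
  rw [Int.card_Icc] at h1
  have h5 : (⌊Y⌋₊ + 1 - -(⌊Y⌋₊ : ℤ)).toNat = 2 * ⌊Y⌋₊ + 1 := by omega
  rw [h5] at h1
  have h6 := Nat.floor_le hY
  have h7 : ((A.filter (fun p : ℕ => ((lf L p).natAbs : ℝ) ≤ Y)).card : ℝ) ≤
      ((2 * ⌊Y⌋₊ + 1 : ℕ) : ℝ) := by exact_mod_cast h1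
  push_cast at h7
  linarith

theorem log_small {a c : ℝ} (ha : 0 < a) (hc : 0 < c) :
    ∃ N₀ : ℕ, ∀ N : ℕ, N₀ ≤ N → Real.log N ≤ c * (N : ℝ) ^ a := by
  have h := (isLittleO_log_rpow_atTop ha).bound hc
  have h2 := tendsto_natCast_atTop_atTop (R := ℝ) |>.eventually h
  obtain ⟨N₀, hN⟩ := Filter.eventually_atTop.1 h2
  refine ⟨N₀, fun N hN' => ?_⟩
  have h3 := hN N hN'
  rw [Real.norm_eq_abs, Real.norm_eq_abs, abs_of_nonneg (Real.rpow_nonneg (Nat.cast_nonneg _) _)]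
    at h3
  exact (le_abs_self _).trans h3

open Classical in
/-- the primes at which the form has a large smooth divisor -/
noncomputable def Sm (N : ℕ) (ε₁ ε : ℝ) (L : ℤ × ℕ) : Finset ℕ :=
  (Icc 1 N).filter (fun p : ℕ => p.Prime ∧ lf L p ≠ 0 ∧ ∃ m : ℕ, m ∣ (lf L p).natAbs ∧
      (∀ l : ℕ, l.Prime → l ∣ m → (l : ℝ) < (N : ℝ) ^ ε₁) ∧ (N : ℝ) ^ ε < m)

/-- **the dense version** -/
theorem denseK (hBLK : St_BLK) (hBHK : St_BHK) (hSPK : St_SPK) (k M : ℕ) (hk : 1 ≤ k) :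
    ∃ r : ℕ, 1 ≤ r ∧ ∀ δ ε : ℝ, 0 < δ → 0 < ε → ∃ (c : ℝ) (K : ℕ), 0 < c ∧ ∀ X : ℕ, 2 ≤ X →
      ∀ A : Finset ℕ, (∀ p ∈ A, p.Prime ∧ p ≤ X) → δ * (X / Real.log X) ≤ A.card →
      ∃ H : Finset (ℤ × ℕ), H.card ≤ K ∧
        ∀ S, Sys k M X S → Disjoint S H → c * A.card ≤ (G2 A X ε r S).card := by
  classical
  obtain ⟨ζ, c, hζ, hζ1, hc, H1⟩ := core hBLK hBHK k M hk
  set r : ℕ := ⌈((M : ℝ) + 2) / ζ⌉₊ with hr
  have hr1 : ((M : ℝ) + 2) / ζ ≤ r := Nat.le_ceil _
  have hr0 : 1 ≤ r := by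
    rw [hr]
    exact Nat.ceil_pos.2 (by positivity)
  refine ⟨r, hr0, fun δ ε hδ hε => ?_⟩
  obtain ⟨Cs, hCs, H3⟩ := hSPK M (k + 1)
  obtain ⟨ε', hε', hε'1, hε'2⟩ : ∃ ε' : ℝ, 0 < ε' ∧ ε' ≤ ε ∧ ε' ≤ 1 / 2 :=
    ⟨min ε (1 / 2), lt_min hε (by norm_num), min_le_left _ _, min_le_right _ _⟩
  have hk0 : (0 : ℝ) < k := by exact_mod_cast hk
  obtain ⟨D, hD, hDdef⟩ : ∃ D : ℝ, 0 < D ∧ D = Cs / ε' ^ (k + 1) := ⟨_, by positivity, rfl⟩
  obtain ⟨ε₁, hε₁0, h11, h12⟩ : ∃ ε₁ : ℝ, 0 < ε₁ ∧ ε₁ ≤ ζ / 2 ∧ ε₁ ≤ c * δ / (4 * k * D) :=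
    ⟨min (ζ / 2) (c * δ / (4 * k * D)), lt_min (by positivity) (by positivity), min_le_left _ _,
      min_le_right _ _⟩
  have hε₁ζ : ε₁ < ζ := by linarith
  have hkey : (k : ℝ) * (D * ε₁ ^ (k + 1)) ≤ c / 4 * ε₁ ^ k * δ := by
    have h1 : ε₁ * (4 * k * D) ≤ c * δ := (le_div_iff₀ (by positivity)).1 h12
    have h2 : (0 : ℝ) < ε₁ ^ k := by positivity
    calc (k : ℝ) * (D * ε₁ ^ (k + 1)) = ε₁ * (4 * k * D) * (ε₁ ^ k / 4) := by ring
      _ ≤ c * δ * (ε₁ ^ k / 4) := by gcongr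
      _ = _ := by ring
  obtain ⟨η, C, N₀, hη, hC, H2⟩ := H1 ε₁ hε₁0 hε₁ζ
  obtain ⟨N₁, H4⟩ := H3 ε₁ ε' hε₁0 (by linarith) hε' (by linarith)
  obtain ⟨N₂, H5⟩ := log_small hη hδ
  obtain ⟨N₃, H6⟩ := log_small (show (0 : ℝ) < 1 / 2 by norm_num)
    (show (0 : ℝ) < c / 4 * ε₁ ^ k * δ / (3 * k) by positivity)
  set N₄ := max (max N₀ N₁) (max (max N₂ N₃) 2) with hN₄
  refine ⟨c / 2 * ε₁ ^ k, max ⌈C / δ⌉₊ (box M N₄).card, by positivity, ?_⟩
  intro X hX A hA hAc
  have hX2 : (2 : ℝ) ≤ X := by exact_mod_cast hX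
  have hX1 : (1 : ℝ) < X := by linarith
  have hX0 : (0 : ℝ) < X := by linarith
  have hLX : 0 < Real.log X := Real.log_pos (by linarith)
  have hA0 : (0 : ℝ) < A.card := lt_of_lt_of_le (by positivity) hAc
  rcases lt_or_ge X N₄ with hlt | hge
  · refine ⟨box M X, ?_, ?_⟩
    · refine le_trans (Finset.card_le_card ?_) (le_max_right _ _)
      have h3 : (X : ℤ) ^ M ≤ (N₄ : ℤ) ^ M :=
        pow_le_pow_left₀ (by positivity) (by exact_mod_cast hlt.le) M
      have h4 : X ^ M ≤ N₄ ^ M := Nat.pow_le_pow_left hlt.le M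
      unfold box
      apply Finset.product_subset_product
      · exact Finset.Icc_subset_Icc (by linarith) h3
      · exact Finset.Icc_subset_Icc le_rfl h4
    · intro S hS hSH
      exfalso
      have hne : S.Nonempty := by
        rw [← Finset.card_pos, hS.card]
        omega
      obtain ⟨L, hL⟩ := hne
      exact Finset.disjoint_left.1 hSH hL (mem_box (hS.fo L hL))
  · have g0 : N₀ ≤ X := by omega
    have g1 : N₁ ≤ X := by omega
    have g2 : N₂ ≤ X := by omega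
    have g3 : N₃ ≤ X := by omega
    have hAη : (X : ℝ) ^ (1 - η) ≤ A.card := by
      refine le_trans ?_ hAc
      rw [Real.rpow_sub hX0, Real.rpow_one, ← mul_div_assoc, div_le_div_iff₀ (by positivity) hLX]
      have := H5 X g2
      calc (X : ℝ) * Real.log X ≤ X * (δ * (X : ℝ) ^ η) := by gcongr
        _ = _ := by ring
    obtain ⟨H, hH1, hH2⟩ := H2 X g0 A hA hAη
    refine ⟨H, ?_, fun S hS hSH => ?_⟩
    · refine le_trans ?_ (le_max_left _ _)
      have h1 : (H.card : ℝ) ≤ C / δ := by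
        refine hH1.trans ?_
        rw [← mul_div_assoc, div_le_div_iff₀ (by positivity) hδ]
        have h2 : δ * X ≤ A.card * Real.log X := by
          have := (mul_le_mul_of_nonneg_right hAc hLX.le)
          calc δ * X = δ * (X / Real.log X) * Real.log X := by field_simp
            _ ≤ _ := this
        calc C * X * δ = C * (δ * X) := by ring
          _ ≤ C * (A.card * Real.log X) := by gcongr
      exact_mod_cast h1.trans (Nat.le_ceil _)
    · have hSf := hH2 S hS hSH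
      -- the exceptional primes
      have hsub : Sf A X ε₁ ζ S ⊆ G2 A X ε r S ∪ (S.biUnion (fun L => Sm X ε₁ ε' L) ∪
          S.biUnion (fun L => A.filter (fun p : ℕ => ((lf L p).natAbs : ℝ) ≤ (X : ℝ) ^ ε'))) := by
        intro p hp
        by_contra hno
        rw [mem_union, mem_union, not_or, not_or] at hno
        obtain ⟨n1, n2, n3⟩ := hno
        apply n1
        unfold Sf at hp
        rw [mem_filter] at hp
        unfold G2
        rw [mem_filter]
        refine ⟨hp.1, fun L hL => ?_⟩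
        obtain ⟨e1, e2⟩ := hp.2 L hL
        obtain ⟨m, s, h1, h2, h3, h4⟩ := structK hζ hζ1 hr1 hX (hS.fo L hL) (hA p hp.1).2 e1 e2
        have hn0 : (lf L p).natAbs ≠ 0 := by
          rw [Ne, Int.natAbs_eq_zero]
          exact e1
        have hm0 : m ≠ 0 := by
          rintro rfl
          exact hn0 (by rw [h1, zero_mul])
        have hs0 : s ≠ 0 := by
          rintro rfl
          exact hn0 (by rw [h1, mul_zero])
        have hm : (m : ℝ) ≤ (X : ℝ) ^ ε' := by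
          by_contra hm
          rw [not_le] at hm
          apply n2
          rw [mem_biUnion]
          refine ⟨L, hL, ?_⟩
          unfold Sm
          rw [mem_filter, mem_Icc]
          exact ⟨⟨(hA p hp.1).1.pos, (hA p hp.1).2⟩, (hA p hp.1).1, e1, m, Dvd.intro _ h1.symm, h2,
            hm⟩
        refine ⟨m, s, h1, Nat.pos_of_ne_zero hm0, hm.trans
          (Real.rpow_le_rpow_of_exponent_le hX1.le hε'1), ?_, h3, h4⟩
        by_contra hs1
        have hs2 : s = 1 := by omega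
        apply n3
        rw [mem_biUnion]
        refine ⟨L, hL, ?_⟩
        rw [mem_filter]
        refine ⟨hp.1, ?_⟩
        rw [h1, hs2, mul_one]
        exact hm
      have hc1 : ((S.biUnion (fun L => Sm X ε₁ ε' L)).card : ℝ) ≤ c / 4 * ε₁ ^ k * A.card := by
        have h1 : ((S.biUnion (fun L => Sm X ε₁ ε' L)).card : ℝ) ≤
            ∑ _L ∈ S, D * ε₁ ^ (k + 1) * (X / Real.log X) := by
          have h2 : (S.biUnion (fun L => Sm X ε₁ ε' L)).card ≤ ∑ L ∈ S, (Sm X ε₁ ε' L).card :=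
            Finset.card_biUnion_le
          refine le_trans (by exact_mod_cast h2 : ((S.biUnion (fun L => Sm X ε₁ ε' L)).card : ℝ) ≤
            ∑ L ∈ S, ((Sm X ε₁ ε' L).card : ℝ)) ?_
          apply Finset.sum_le_sum
          intro L hL
          have h3 := H4 X g1 L (hS.fo L hL)
          unfold Sm
          refine h3.trans (le_of_eq ?_)
          rw [hDdef, div_pow]
          ring
        rw [Finset.sum_const, nsmul_eq_mul, hS.card] at h1
        refine h1.trans ?_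
        calc (k : ℝ) * (D * ε₁ ^ (k + 1) * (X / Real.log X)) =
              (k * (D * ε₁ ^ (k + 1))) * (X / Real.log X) := by ring
          _ ≤ (c / 4 * ε₁ ^ k * δ) * (X / Real.log X) := by gcongr
          _ = c / 4 * ε₁ ^ k * (δ * (X / Real.log X)) := by ring
          _ ≤ _ := by gcongr
      have hc2 : ((S.biUnion (fun L => A.filter (fun p : ℕ =>
          ((lf L p).natAbs : ℝ) ≤ (X : ℝ) ^ ε'))).card : ℝ) ≤ c / 4 * ε₁ ^ k * A.card := by
        have hpow : (1 : ℝ) ≤ (X : ℝ) ^ (1 / 2 : ℝ) := Real.one_le_rpow hX1.le (by norm_num)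
        have h1 : ((S.biUnion (fun L => A.filter (fun p : ℕ =>
            ((lf L p).natAbs : ℝ) ≤ (X : ℝ) ^ ε'))).card : ℝ) ≤
            ∑ _L ∈ S, 3 * (X : ℝ) ^ (1 / 2 : ℝ) := by
          have h2 : (S.biUnion (fun L => A.filter (fun p : ℕ =>
              ((lf L p).natAbs : ℝ) ≤ (X : ℝ) ^ ε'))).card ≤
              ∑ L ∈ S, (A.filter (fun p : ℕ => ((lf L p).natAbs : ℝ) ≤ (X : ℝ) ^ ε')).card :=
            Finset.card_biUnion_le
          refine le_trans (by exact_mod_cast h2 : ((S.biUnion (fun L => A.filter (fun p : ℕ =>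
            ((lf L p).natAbs : ℝ) ≤ (X : ℝ) ^ ε'))).card : ℝ) ≤ ∑ L ∈ S, ((A.filter
            (fun p : ℕ => ((lf L p).natAbs : ℝ) ≤ (X : ℝ) ^ ε')).card : ℝ)) ?_
          apply Finset.sum_le_sum
          intro L hL
          have h3 := small_card (hS.fo L hL).b1 A (show 0 ≤ (X : ℝ) ^ ε' by positivity)
          have h4 : (X : ℝ) ^ ε' ≤ (X : ℝ) ^ (1 / 2 : ℝ) :=
            Real.rpow_le_rpow_of_exponent_le hX1.le hε'2
          linarith
        rw [Finset.sum_const, nsmul_eq_mul, hS.card] at h1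
        refine h1.trans ?_
        have h5 := H6 X g3
        have h6 : (k : ℝ) * (3 * (X : ℝ) ^ (1 / 2 : ℝ)) ≤
            c / 4 * ε₁ ^ k * (δ * (X / Real.log X)) := by
          rw [← mul_div_assoc, ← mul_div_assoc, le_div_iff₀ hLX]
          have hXX : (X : ℝ) = (X : ℝ) ^ (1 / 2 : ℝ) * (X : ℝ) ^ (1 / 2 : ℝ) := by
            rw [← Real.rpow_add hX0]
            norm_num
          calc (k : ℝ) * (3 * (X : ℝ) ^ (1 / 2 : ℝ)) * Real.log X
              ≤ (k : ℝ) * (3 * (X : ℝ) ^ (1 / 2 : ℝ)) *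
                (c / 4 * ε₁ ^ k * δ / (3 * k) * (X : ℝ) ^ (1 / 2 : ℝ)) := by gcongr
            _ = c / 4 * ε₁ ^ k * δ * ((X : ℝ) ^ (1 / 2 : ℝ) * (X : ℝ) ^ (1 / 2 : ℝ)) := by
                field_simp
            _ = c / 4 * ε₁ ^ k * δ * X := by rw [← hXX]
            _ = _ := by ring
        refine h6.trans ?_
        gcongr
      have h7 := (Finset.card_le_card hsub).trans (Finset.card_union_le _ _)
      have h8 := Finset.card_union_le (S.biUnion (fun L => Sm X ε₁ ε' L))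
        (S.biUnion (fun L => A.filter (fun p : ℕ => ((lf L p).natAbs : ℝ) ≤ (X : ℝ) ^ ε')))
      have h9 : ((Sf A X ε₁ ζ S).card : ℝ) ≤ (G2 A X ε r S).card +
          (S.biUnion (fun L => Sm X ε₁ ε' L)).card + (S.biUnion (fun L => A.filter
            (fun p : ℕ => ((lf L p).natAbs : ℝ) ≤ (X : ℝ) ^ ε'))).card := by
        exact_mod_cast (by omega : (Sf A X ε₁ ζ S).card ≤ (G2 A X ε r S).card +
          (S.biUnion (fun L => Sm X ε₁ ε' L)).card + (S.biUnion (fun L => A.filter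
            (fun p : ℕ => ((lf L p).natAbs : ℝ) ≤ (X : ℝ) ^ ε'))).card)
      linarith

end Pool.Agent.W23.KT
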