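import Pool.Agent.W23.KT.Defs
import Pool.Agent.W23.SG.Fin3

/-!
KT project (helper23): from the Bessel inequality to the sifted sets.
-/

namespace Pool.Agent.W23.KT

open Finset Filter
open Pool.Agent.H442R2
open Pool.Agent.H442R2.KF
open Pool.Agent.W23.DC
open Pool.Agent.W23.SG

theorem kw_one (k : ℕ) : kw k 1 = 1 := by simp [kw]

theorem DK_one (k : ℕ) (f : ℕ → ℝ) (N : ℕ) (S : Finset (ℤ × ℕ)) : DK k f N S 1 = 0 := by
  unfold DK
  rw [kw_one]
  have : (Icc 1 N).filter (fun p : ℕ => p.Prime ∧ ((1 : ℕ) : ℤ) ∣ Fp S p) =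
      (Icc 1 N).filter Nat.Prime := by
    apply Finset.filter_congr
    intro p _
    refine ⟨fun h => h.1, fun h => ⟨h, ?_⟩⟩
    push_cast
    exact one_dvd _
  rw [this]
  simp

open Classical in
theorem countK {N : ℕ} {A : Finset ℕ} (hA : ∀ p ∈ A, p.Prime ∧ p ≤ N) (k : ℕ)
    (S : Finset (ℤ × ℕ)) (e : ℕ) :
    ∑ p ∈ A, (if (e : ℤ) ∣ Fp S p then (1 : ℝ) else 0) =
      (A.card : ℝ) * (kw k e / (Nat.totient e : ℝ)) + DK k (fA A) N S e := by
  unfold DK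
  have h1 : ∑ p ∈ (Icc 1 N).filter (fun p : ℕ => p.Prime ∧ (e : ℤ) ∣ Fp S p), fA A p =
      ∑ p ∈ A, (if (e : ℤ) ∣ Fp S p then (1 : ℝ) else 0) := by
    rw [← Finset.sum_filter]
    symm
    have h3 : A.filter (fun p : ℕ => (e : ℤ) ∣ Fp S p) ⊆
        (Icc 1 N).filter (fun p : ℕ => p.Prime ∧ (e : ℤ) ∣ Fp S p) := by
      intro p hp
      rw [mem_filter] at hp
      rw [mem_filter, mem_Icc]
      have := hA p hp.1
      exact ⟨⟨this.1.pos, this.2⟩, this.1, hp.2⟩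
    rw [← Finset.sum_subset h3]
    · apply Finset.sum_congr rfl
      intro p hp
      rw [mem_filter] at hp
      unfold fA
      rw [if_pos hp.1]
    · intro p hp hpn
      rw [mem_filter] at hp hpn
      unfold fA
      rw [if_neg]
      intro h
      exact hpn ⟨h, hp.2.2⟩
  have h4 : ∑ p ∈ (Icc 1 N).filter Nat.Prime, fA A p = A.card := by
    have h5 : A ⊆ (Icc 1 N).filter Nat.Prime := by
      intro p hp
      have := hA p hp
      rw [mem_filter, mem_Icc]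
      exact ⟨⟨this.1.pos, this.2⟩, this.1⟩
    rw [← Finset.sum_subset h5]
    · have : ∑ p ∈ A, fA A p = ∑ p ∈ A, (1 : ℝ) := by
        apply Finset.sum_congr rfl
        intro p hp
        unfold fA
        rw [if_pos hp]
      rw [this]
      simp
    · intro p _ hpn
      unfold fA
      rw [if_neg hpn]
  rw [h1, h4]
  ring

open Classical in
/-- the moduli of the sieve -/
noncomputable def TS (N : ℕ) (ε₁ : ℝ) (S : Finset (ℤ × ℕ)) : Finset ℕ :=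
  (Icc 1 ⌊(N : ℝ) ^ (49 / 100 : ℝ)⌋₊).filter
    (fun d => Mo ((N : ℝ) ^ (ε₁ / 2)) ⌊(N : ℝ) ^ (49 / 100 : ℝ)⌋₊ S d)

open Classical in
/-- the sifting primes -/
noncomputable def PS (N : ℕ) (ε₁ ζ : ℝ) (S : Finset (ℤ × ℕ)) : Finset ℕ :=
  (pr N ε₁ ζ).filter (fun p => gp S p)

theorem xx_le_one (P : Finset ℕ) (m : ℤ) : PL.xx P m ≤ 1 := by
  unfold PL.xx
  split_ifs <;> norm_num

/-- the sieve lower bound -/
theorem sieveK (hBHK : St_BHK) (k : ℕ) (hk : 1 ≤ k) : ∃ ζ c : ℝ, 0 < ζ ∧ ζ ≤ 1 / 10 ∧ 0 < c ∧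
    ∀ ε₁ : ℝ, 0 < ε₁ → ε₁ < ζ → ∃ (N₀ : ℕ) (U : ℝ), 0 < U ∧ ∀ N : ℕ, N₀ ≤ N → ∀ A : Finset ℕ,
    (∀ p ∈ A, p.Prime ∧ p ≤ N) → ∀ S : Finset (ℤ × ℕ),
    c * ε₁ ^ k * A.card - U * ∑ d ∈ TS N ε₁ S, |DK k (fA A) N S d| ≤
      ∑ p ∈ A, PL.xx (PS N ε₁ ζ S) (Fp S p) := by
  classical
  obtain ⟨ζ, c, hζ, hζ2, hc, H⟩ := hBHK k hk
  refine ⟨ζ, c, hζ, hζ2, hc, fun ε₁ hε hεζ => ?_⟩
  obtain ⟨N₀, U, hU, H1⟩ := H ε₁ hε hεζ
  refine ⟨max N₀ 2, U, hU, fun N hN A hA S => ?_⟩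
  have hN2 : 2 ≤ N := (le_max_right _ _).trans hN
  have hN1 : (1 : ℝ) < N := by exact_mod_cast (by omega : 1 < N)
  obtain ⟨th, h1, h2, h3, h4⟩ := H1 N ((le_max_left _ _).trans hN) (PS N ε₁ ζ S)
    (Finset.filter_subset _ _)
  set D := ⌊(N : ℝ) ^ (49 / 100 : ℝ)⌋₊ with hD
  have e1 : ∑ p ∈ A, ∑ e ∈ Icc 1 D, th e * (if (e : ℤ) ∣ Fp S p then (1 : ℝ) else 0) =
      (A.card : ℝ) * (∑ e ∈ Icc 1 D, th e * (kw k e / (Nat.totient e : ℝ))) +
        ∑ e ∈ Icc 1 D, th e * DK k (fA A) N S e := by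
    rw [Finset.sum_comm, Finset.mul_sum, ← Finset.sum_add_distrib]
    apply Finset.sum_congr rfl
    intro e _
    rw [← Finset.mul_sum, countK hA k S e]
    ring
  have e2 : ∑ p ∈ A, ∑ e ∈ Icc 1 D, th e * (if (e : ℤ) ∣ Fp S p then (1 : ℝ) else 0) ≤
      ∑ p ∈ A, PL.xx (PS N ε₁ ζ S) (Fp S p) := by
    apply Finset.sum_le_sum
    intro p _
    have := h3 (Fp S p)
    convert this using 2
  have e3 : |∑ e ∈ Icc 1 D, th e * DK k (fA A) N S e| ≤
      U * ∑ d ∈ TS N ε₁ S, |DK k (fA A) N S d| := by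
    have hz : ∀ e ∈ Icc 1 D, e ∉ TS N ε₁ S → th e * DK k (fA A) N S e = 0 := by
      intro e he heT
      by_cases hth : th e = 0
      · rw [hth, zero_mul]
      · obtain ⟨g1, g2, g3⟩ := h2 e hth
        rw [mem_Icc] at he
        by_cases he1 : e = 1
        · rw [he1, DK_one, mul_zero]
        · exfalso
          apply heT
          unfold TS
          rw [mem_filter, mem_Icc]
          refine ⟨⟨he.1, he.2⟩, by omega, he.2, g1, fun p hp hpe => ?_⟩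
          have h5 := g3 p hp hpe
          unfold PS at h5
          rw [mem_filter, mem_pr] at h5
          refine ⟨?_, h5.2⟩
          have h6 := (le_tt_iff hN2 hp.pos _).1 h5.1.2.2.1
          exact lt_of_lt_of_le (Real.rpow_lt_rpow_of_exponent_lt hN1 (by linarith)) h6
    have hsub : TS N ε₁ S ⊆ Icc 1 D := Finset.filter_subset _ _
    rw [← Finset.sum_subset hsub hz]
    calc |∑ e ∈ TS N ε₁ S, th e * DK k (fA A) N S e|
        ≤ ∑ e ∈ TS N ε₁ S, |th e * DK k (fA A) N S e| := Finset.abs_sum_le_sum_abs _ _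
      _ ≤ ∑ e ∈ TS N ε₁ S, U * |DK k (fA A) N S e| := by
          apply Finset.sum_le_sum
          intro e _
          rw [abs_mul]
          exact mul_le_mul_of_nonneg_right (h1 e) (abs_nonneg _)
      _ = _ := by rw [Finset.mul_sum]
  have e4 := (abs_le.1 e3).1
  have e5 : c * ε₁ ^ k * A.card ≤
      (A.card : ℝ) * (∑ e ∈ Icc 1 D, th e * (kw k e / (Nat.totient e : ℝ))) := by
    have := mul_le_mul_of_nonneg_left h4 (Nat.cast_nonneg A.card : (0 : ℝ) ≤ A.card)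
    linarith
  linarith

/-- a maximal family of pairwise disjoint sets -/
theorem maxfam {α : Type*} [DecidableEq α] (𝓔 : Finset (Finset α)) (hne : ∀ S ∈ 𝓔, S.Nonempty) :
    ∃ 𝒯 ⊆ 𝓔, (∀ S ∈ 𝒯, ∀ S' ∈ 𝒯, S ≠ S' → Disjoint S S') ∧
      ∀ S ∈ 𝓔, ¬ Disjoint S (𝒯.biUnion id) := by
  classical
  obtain ⟨𝒯, h𝒯, hmax⟩ := Finset.exists_max_image
    (𝓔.powerset.filter (fun 𝒯 => ∀ S ∈ 𝒯, ∀ S' ∈ 𝒯, S ≠ S' → Disjoint S S')) Finset.card
    ⟨∅, by simp⟩
  rw [mem_filter, mem_powerset] at h𝒯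
  refine ⟨𝒯, h𝒯.1, h𝒯.2, ?_⟩
  intro S hS hdis
  have hSn : S ∉ 𝒯 := by
    intro h
    obtain ⟨x, hx⟩ := hne S hS
    exact (Finset.disjoint_left.1 hdis hx) (mem_biUnion.2 ⟨S, h, hx⟩)
  have h1 := hmax (insert S 𝒯) (by
    rw [mem_filter, mem_powerset]
    refine ⟨Finset.insert_subset hS h𝒯.1, ?_⟩
    have hd : ∀ S' ∈ 𝒯, Disjoint S S' := fun S' hS' =>
      hdis.mono_right (fun x hx => mem_biUnion.2 ⟨S', hS', hx⟩)
    intro S₁ h₁ S₂ h₂ hne'
    rcases mem_insert.1 h₁ with e₁ | h₃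
    · rcases mem_insert.1 h₂ with e₂ | h₄
      · exact absurd (e₁.trans e₂.symm) hne'
      · rw [e₁]
        exact hd S₂ h₄
    · rcases mem_insert.1 h₂ with e₂ | h₄
      · rw [e₂]
        exact (hd S₁ h₃).symm
      · exact h𝒯.2 S₁ h₃ S₂ h₄ hne')
  rw [Finset.card_insert_of_notMem hSn] at h1
  omega

/-- the box of all forms -/
noncomputable def box (M N : ℕ) : Finset (ℤ × ℕ) := (Icc (-((N : ℤ) ^ M)) ((N : ℤ) ^ M)) ×ˢ (Icc 1 (N ^ M))

theorem mem_box {M N : ℕ} {L : ℤ × ℕ} (h : FoM M N L) : L ∈ box M N := by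
  have h1 := abs_le.1 h.a
  have h2 := h.b2
  unfold box
  rw [mem_product, mem_Icc, mem_Icc]
  refine ⟨⟨?_, ?_⟩, h.b1, ?_⟩
  · exact_mod_cast h1.1
  · exact_mod_cast h1.2
  · exact_mod_cast h2

/-- the exceptional systems -/
theorem fewK (hBLK : St_BLK) (k M : ℕ) (hk : 1 ≤ k) {ε₁ κ : ℝ} (hε : 0 < ε₁) (hκ : 0 < κ) :
    ∃ (η C : ℝ) (N₀ : ℕ), 0 < η ∧ 0 < C ∧ ∀ N : ℕ, N₀ ≤ N → ∀ A : Finset ℕ,
      (∀ p ∈ A, p.Prime ∧ p ≤ N) → (N : ℝ) ^ (1 - η) ≤ A.card →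
      ∃ H : Finset (ℤ × ℕ), (H.card : ℝ) ≤ C * (N / (A.card * Real.log N)) ∧
        ∀ S, Sys k M N S → Disjoint S H →
          ∑ d ∈ TS N ε₁ S, |DK k (fA A) N S d| < κ * A.card := by
  classical
  obtain ⟨η, C, hη, hC, H2⟩ := hBLK k M (49 / 100) (ε₁ / 2) (by norm_num) (by positivity)
  obtain ⟨N₂, hN₂⟩ : ∃ N₀ : ℕ, ∀ N : ℕ, N₀ ≤ N → C * (N : ℝ) ^ (-(η / 2)) ≤ κ ^ 2 / 2 := by
    have h1 : Filter.Tendsto (fun N : ℕ => C * (N : ℝ) ^ (-(η / 2))) Filter.atTop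
        (nhds (C * 0)) :=
      ((tendsto_rpow_neg_atTop (by positivity : 0 < η / 2)).comp
        (tendsto_natCast_atTop_atTop (R := ℝ))).const_mul C
    rw [mul_zero] at h1
    have h2 := h1.eventually_le_const (show (0 : ℝ) < κ ^ 2 / 2 by positivity)
    exact Filter.eventually_atTop.1 h2
  refine ⟨η / 4, k * (2 * C / κ ^ 2), max N₂ 2, by positivity, by positivity, ?_⟩
  intro N hN A hA hAc1
  have hNN₂ : N₂ ≤ N := (le_max_left _ _).trans hN
  have hN2 : 2 ≤ N := (le_max_right _ _).trans hN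
  have hN1 : (1 : ℝ) < N := by exact_mod_cast (by omega : 1 < N)
  have hN0 : (0 : ℝ) < N := by linarith
  have hL : 0 < Real.log N := Real.log_pos hN1
  have hA0 : (0 : ℝ) < A.card := lt_of_lt_of_le (Real.rpow_pos_of_pos hN0 _) hAc1
  set 𝓔 : Finset (Finset (ℤ × ℕ)) := (box M N).powerset.filter (fun S => Sys k M N S ∧
    κ * A.card ≤ ∑ d ∈ TS N ε₁ S, |DK k (fA A) N S d|) with h𝓔
  obtain ⟨𝒯, h𝒯, hdis, hmax⟩ := maxfam 𝓔 (fun S hS => by
    rw [h𝓔, mem_filter] at hS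
    rw [← Finset.card_pos, hS.2.1.card]
    omega)
  have hT1 : ∀ S ∈ 𝒯, Sys k M N S := fun S hS => (mem_filter.1 (h𝒯 hS)).2.1
  have hT2 : ∀ S ∈ 𝒯, κ * A.card ≤ ∑ d ∈ TS N ε₁ S, |DK k (fA A) N S d| :=
    fun S hS => (mem_filter.1 (h𝒯 hS)).2.2
  refine ⟨𝒯.biUnion id, ?_, ?_⟩
  · -- the Bessel inequality
    have h1 := H2 N hN2 (fA A) (fA_le A) 𝒯 hT1 hdis (TS N ε₁) (fun S _ d hd => by
      unfold TS at hd
      exact (mem_filter.1 hd).2)
    rw [Q2_fA hA] at h1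
    have h2 : (𝒯.card : ℝ) * (κ ^ 2 * (A.card : ℝ) ^ 2) ≤
        ∑ S ∈ 𝒯, (∑ d ∈ TS N ε₁ S, |DK k (fA A) N S d|) ^ 2 := by
      rw [← nsmul_eq_mul, ← Finset.sum_const]
      apply Finset.sum_le_sum
      intro S hS
      rw [← mul_pow]
      exact pow_le_pow_left₀ (by positivity) (hT2 S hS) 2
    have h3 : C * (N : ℝ) ^ (2 - η) ≤ κ ^ 2 / 2 * (A.card : ℝ) ^ 2 := by
      have e1 : (N : ℝ) ^ (2 - η) = (N : ℝ) ^ (-(η / 2)) * ((N : ℝ) ^ (1 - η / 4)) ^ 2 := by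
        rw [← Real.rpow_natCast ((N : ℝ) ^ (1 - η / 4)) 2, ← Real.rpow_mul hN0.le,
          ← Real.rpow_add hN0]
        congr 1
        push_cast
        ring
      rw [e1, ← mul_assoc]
      have := hN₂ N hNN₂
      gcongr
    have h4 : (𝒯.card : ℝ) * (κ ^ 2 / 2 * (A.card : ℝ) ^ 2) ≤
        C * (A.card * (N / Real.log N)) := by
      have h5 := h2.trans h1
      have h6 : (𝒯.card : ℝ) * (C * (N : ℝ) ^ (2 - η)) ≤
          𝒯.card * (κ ^ 2 / 2 * (A.card : ℝ) ^ 2) :=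
        mul_le_mul_of_nonneg_left h3 (Nat.cast_nonneg _)
      nlinarith
    have h7 : (𝒯.card : ℝ) * (κ ^ 2 / 2 * (A.card : ℝ) ^ 2) =
        (A.card : ℝ) * (𝒯.card * (κ ^ 2 / 2 * A.card)) := by ring
    have h8 : C * (A.card * (N / Real.log N)) = (A.card : ℝ) * (C * (N / Real.log N)) := by ring
    rw [h7, h8] at h4
    have h9 := le_of_mul_le_mul_left h4 hA0
    have h10 : ((𝒯.biUnion id).card : ℝ) ≤ 𝒯.card * k := by
      have h11 : (𝒯.biUnion id).card ≤ 𝒯.card * k :=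
        Finset.card_biUnion_le_card_mul _ _ _ (fun S hS => (hT1 S hS).card.le)
      exact_mod_cast h11
    calc ((𝒯.biUnion id).card : ℝ) ≤ 𝒯.card * k := h10
      _ = 𝒯.card * (κ ^ 2 / 2 * A.card) * (2 / (κ ^ 2 * A.card)) * k := by
          field_simp
      _ ≤ C * (N / Real.log N) * (2 / (κ ^ 2 * A.card)) * k := by gcongr
      _ = _ := by
          field_simp
  · intro S hS hSH
    by_contra hcon
    rw [not_lt] at hcon
    apply hmax S _ hSH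
    rw [h𝓔, mem_filter, mem_powerset]
    exact ⟨fun L hL => mem_box (hS.fo L hL), hS, hcon⟩

/-- the number of bad primes -/
theorem badK (k M : ℕ) {N : ℕ} (hN : 2 ≤ N) {ε₁ : ℝ} (hε : 0 < ε₁) (S : Finset (ℤ × ℕ))
    (hS : Sys k M N S) (B : Finset ℕ)
    (hB : ∀ l ∈ B, l.Prime ∧ (N : ℝ) ^ ε₁ ≤ l ∧ ¬ gp S l) :
    (B.card : ℝ) ≤ (k * M + k * k * (2 * M + 1)) / ε₁ := by
  classical
  have hN1 : (1 : ℝ) < N := by exact_mod_cast (by omega : 1 < N)
  have hN0 : (0 : ℝ) < N := by linarith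
  set Δ : ℕ := (∏ L ∈ S, L.2) *
    ∏ q ∈ (S ×ˢ S).filter (fun q => q.1 ≠ q.2), (q.1.1 * q.2.2 - q.2.1 * q.1.2 : ℤ).natAbs with hΔ
  have hne : ∀ L ∈ S, ∀ L' ∈ S, L ≠ L' → (L.1 * L'.2 - L'.1 * L.2 : ℤ) ≠ 0 := by
    intro L hL L' hL' hne h0
    apply hne
    have h1 := hS.fo L hL
    have h2 := hS.fo L' hL'
    have h3 : L.1 * L'.2 = L'.1 * L.2 := by linarith
    have c1 : IsCoprime L.1 (L.2 : ℤ) := Int.isCoprime_iff_gcd_eq_one.2 h1.cop
    have c2 : IsCoprime L'.1 (L'.2 : ℤ) := Int.isCoprime_iff_gcd_eq_one.2 h2.cop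
    have d1 : (L.2 : ℤ) ∣ (L'.2 : ℤ) := by
      have : (L.2 : ℤ) ∣ L.1 * L'.2 := by rw [h3]; exact dvd_mul_left _ _
      exact c1.symm.dvd_of_dvd_mul_left this
    have d2 : (L'.2 : ℤ) ∣ (L.2 : ℤ) := by
      have : (L'.2 : ℤ) ∣ L'.1 * L.2 := by rw [← h3]; exact dvd_mul_left _ _
      exact c2.symm.dvd_of_dvd_mul_left this
    have e2 : L.2 = L'.2 := Nat.dvd_antisymm (by exact_mod_cast d1) (by exact_mod_cast d2)
    have e1 : L.1 = L'.1 := by
      rw [e2] at h3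
      have hb : (L'.2 : ℤ) ≠ 0 := by
        have := h2.b1
        exact_mod_cast (by omega : L'.2 ≠ 0)
      exact mul_right_cancel₀ hb h3
    exact Prod.ext e1 e2
  have hΔ0 : Δ ≠ 0 := by
    rw [hΔ]
    apply mul_ne_zero
    · exact Finset.prod_ne_zero_iff.2 fun L hL => by
        have := (hS.fo L hL).b1
        omega
    · refine Finset.prod_ne_zero_iff.2 fun q hq => ?_
      rw [mem_filter, mem_product] at hq
      rw [Ne, Int.natAbs_eq_zero]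
      exact hne q.1 hq.1.1 q.2 hq.1.2 hq.2
  have hΔle : (Δ : ℝ) ≤ (N : ℝ) ^ (k * M + k * k * (2 * M + 1)) := by
    rw [hΔ]
    push_cast
    simp only [Nat.cast_natAbs, Int.cast_abs, Int.cast_sub, Int.cast_mul, Int.cast_natCast]
    rw [pow_add]
    apply mul_le_mul
    · calc (∏ L ∈ S, (L.2 : ℝ)) ≤ ∏ _L ∈ S, (N : ℝ) ^ M :=
            Finset.prod_le_prod (fun _ _ => Nat.cast_nonneg _) (fun L hL => (hS.fo L hL).b2)
        _ = (N : ℝ) ^ (k * M) := by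
            rw [Finset.prod_const, hS.card, ← pow_mul, mul_comm]
    · calc (∏ q ∈ (S ×ˢ S).filter (fun q => q.1 ≠ q.2),
            |((q.1.1 : ℝ) * q.2.2 - q.2.1 * q.1.2)|)
          ≤ ∏ _q ∈ (S ×ˢ S).filter (fun q => q.1 ≠ q.2), (N : ℝ) ^ (2 * M + 1) := by
            apply Finset.prod_le_prod (fun _ _ => abs_nonneg _)
            intro q hq
            rw [mem_filter, mem_product] at hq
            have h1 := hS.fo q.1 hq.1.1
            have h2 := hS.fo q.2 hq.1.2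
            have hb1 : (0 : ℝ) ≤ q.1.2 := Nat.cast_nonneg _
            have hb2 : (0 : ℝ) ≤ q.2.2 := Nat.cast_nonneg _
            have hN2r : (2 : ℝ) ≤ N := by exact_mod_cast hN
            calc |((q.1.1 : ℝ) * q.2.2 - q.2.1 * q.1.2)|
                ≤ |(q.1.1 : ℝ) * q.2.2| + |(q.2.1 : ℝ) * q.1.2| := abs_sub _ _
              _ = |(q.1.1 : ℝ)| * q.2.2 + |(q.2.1 : ℝ)| * q.1.2 := by
                  rw [abs_mul, abs_mul, abs_of_nonneg hb1, abs_of_nonneg hb2]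
              _ ≤ (N : ℝ) ^ M * (N : ℝ) ^ M + (N : ℝ) ^ M * (N : ℝ) ^ M := by
                  gcongr
                  · exact h1.a
                  · exact h2.b2
                  · exact h2.a
                  · exact h1.b2
              _ = 2 * (N : ℝ) ^ (2 * M) := by
                  rw [← pow_add, two_mul M]
                  ring
              _ ≤ N * (N : ℝ) ^ (2 * M) := by gcongr
              _ = _ := by rw [pow_succ, mul_comm]
        _ ≤ (N : ℝ) ^ (k * k * (2 * M + 1)) := by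
            rw [Finset.prod_const, ← pow_mul]
            apply pow_le_pow_right₀ hN1.le
            have h3 : ((S ×ˢ S).filter (fun q => q.1 ≠ q.2)).card ≤ k * k := by
              refine (Finset.card_filter_le _ _).trans ?_
              rw [Finset.card_product, hS.card]
            calc (2 * M + 1) * ((S ×ˢ S).filter (fun q => q.1 ≠ q.2)).card
                ≤ (2 * M + 1) * (k * k) := Nat.mul_le_mul_left _ h3
              _ = k * k * (2 * M + 1) := by ring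
    · exact Finset.prod_nonneg fun _ _ => abs_nonneg _
    · positivity
  have hdvd : ∏ l ∈ B, l ∣ Δ := by
    apply Finset.prod_primes_dvd Δ (fun l hl => (hB l hl).1.prime)
    intro l hl
    obtain ⟨hlp, -, hlg⟩ := hB l hl
    rw [hΔ]
    unfold gp at hlg
    rw [not_and_or] at hlg
    rcases hlg with h | h
    · push Not at h
      obtain ⟨L, hL, hl2⟩ := h
      exact Dvd.dvd.mul_right (hl2.trans (Finset.dvd_prod_of_mem (fun L : ℤ × ℕ => L.2) hL)) _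
    · push Not at h
      obtain ⟨L, hL, L', hL', hne', hd⟩ := h
      apply Dvd.dvd.mul_left
      have h5 : l ∣ (L.1 * L'.2 - L'.1 * L.2 : ℤ).natAbs := Int.natCast_dvd.1 hd
      refine h5.trans (Finset.dvd_prod_of_mem
        (fun q : (ℤ × ℕ) × (ℤ × ℕ) => (q.1.1 * q.2.2 - q.2.1 * q.1.2 : ℤ).natAbs)
        (a := (L, L')) ?_)
      rw [mem_filter, mem_product]
      exact ⟨⟨hL, hL'⟩, hne'⟩
  have hle : ((N : ℝ) ^ ε₁) ^ B.card ≤ (N : ℝ) ^ (((k * M + k * k * (2 * M + 1) : ℕ)) : ℝ) := by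
    rw [Real.rpow_natCast]
    calc ((N : ℝ) ^ ε₁) ^ B.card = ∏ _p ∈ B, (N : ℝ) ^ ε₁ := by rw [Finset.prod_const]
      _ ≤ ∏ p ∈ B, (p : ℝ) :=
          Finset.prod_le_prod (fun _ _ => by positivity) (fun p hp => (hB p hp).2.1)
      _ = ((∏ p ∈ B, p : ℕ) : ℝ) := by push_cast; rfl
      _ ≤ (Δ : ℝ) := by exact_mod_cast Nat.le_of_dvd (Nat.pos_of_ne_zero hΔ0) hdvd
      _ ≤ _ := hΔle
  rw [← Real.rpow_natCast, ← Real.rpow_mul hN0.le] at hle
  have h6 := (Real.rpow_le_rpow_left_iff hN1).1 hle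
  rw [le_div_iff₀ hε]
  push_cast at h6
  linarith

end Pool.Agent.W23.KT
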