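import Pool.Agent.W23.KT.Fin1

/-!
KT project (helper23): the main theorems.
-/

namespace Pool.Agent.W23.KT

open Finset Filter
open Pool.Agent.H442R2
open Pool.Agent.H442R2.KF
open Pool.Agent.W23.DC
open Pool.Agent.W23.SG

/-- every positive integer is a product of a smooth and a rough number -/
theorem decomp (y : ℝ) (n : ℕ) (hn : n ≠ 0) : ∃ m s : ℕ, n = m * s ∧
    (∀ l : ℕ, l.Prime → l ∣ m → (l : ℝ) < y) ∧ (∀ q ∈ s.primeFactors, y ≤ (q : ℝ)) ∧
    (0 ≤ y → y ^ s.primeFactorsList.length ≤ (s : ℝ)) := by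
  induction n using Nat.strong_induction_on with
  | _ n ih =>
    rcases Nat.lt_or_ge n 2 with h | h
    · have h1 : n = 1 := by omega
      refine ⟨1, 1, by rw [h1], ?_, ?_, ?_⟩
      · intro l hl hl1
        exact absurd (Nat.dvd_one.1 hl1) hl.one_lt.ne'
      · intro q hq
        simp at hq
      · intro _
        simp
    · have hp := Nat.minFac_prime (show n ≠ 1 by omega)
      obtain ⟨n', hn'⟩ := Nat.minFac_dvd n
      set p := n.minFac with hpdef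
      have hn'0 : n' ≠ 0 := by
        rintro rfl
        exact hn (by rw [hn', mul_zero])
      have hlt : n' < n := by
        rw [hn']
        have := hp.one_lt
        have h2 : 0 < n' := Nat.pos_of_ne_zero hn'0
        nlinarith
      obtain ⟨m, s, h1, h2, h3, h4⟩ := ih n' hlt hn'0
      have hm0 : m ≠ 0 := by
        rintro rfl
        exact hn'0 (by rw [h1, zero_mul])
      have hs0 : s ≠ 0 := by
        rintro rfl
        exact hn'0 (by rw [h1, mul_zero])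
      rcases lt_or_ge (p : ℝ) y with hpy | hpy
      · refine ⟨p * m, s, by rw [hn', h1]; ring, ?_, h3, h4⟩
        intro l hl hlm
        rcases (hl.dvd_mul).1 hlm with h5 | h5
        · rw [(Nat.prime_dvd_prime_iff_eq hl hp).1 h5]
          exact hpy
        · exact h2 l hl h5
      · refine ⟨m, p * s, by rw [hn', h1]; ring, h2, ?_, ?_⟩
        · intro q hq
          rw [Nat.primeFactors_mul hp.ne_zero hs0, mem_union, hp.primeFactors,
            mem_singleton] at hq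
          rcases hq with rfl | hq
          · exact hpy
          · exact h3 q hq
        · intro hy
          have h5 : (p * s).primeFactorsList.length = 1 + s.primeFactorsList.length := by
            rw [← ArithmeticFunction.cardFactors_apply,
              ArithmeticFunction.cardFactors_mul hp.ne_zero hs0,
              ArithmeticFunction.cardFactors_apply_prime hp,
              ArithmeticFunction.cardFactors_apply]
          rw [h5, pow_add, pow_one]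
          push_cast
          exact mul_le_mul hpy (h4 hy) (by positivity) (by positivity)

theorem Fp_eq_zero {S : Finset (ℤ × ℕ)} {n : ℤ} : Fp S n = 0 ↔ ∃ L ∈ S, lf L n = 0 := by
  unfold Fp
  rw [Finset.prod_eq_zero_iff]

theorem not_dvd_b {L : ℤ × ℕ} (hg : Int.gcd L.1 L.2 = 1) {q : ℕ} (hq : q.Prime) {n : ℤ}
    (h : (q : ℤ) ∣ lf L n) : ¬ q ∣ L.2 := by
  intro hqb
  have h4 : (q : ℤ) ∣ (L.2 : ℤ) := Int.natCast_dvd_natCast.2 hqb
  have h5 : (q : ℤ) ∣ L.1 := by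
    have h6 : L.1 = lf L n - L.2 * n := by
      unfold lf
      ring
    rw [h6]
    exact dvd_sub h (h4.mul_right _)
  have h7 := Int.dvd_coe_gcd h5 h4
  rw [hg] at h7
  have h8 : q ∣ 1 := by exact_mod_cast h7
  exact hq.one_lt.ne' (Nat.dvd_one.1 h8)

open Classical in
/-- the sifted elements: no prime factor in `[N^ε₁, N^ζ)` -/
noncomputable def Sf (A : Finset ℕ) (N : ℕ) (ε₁ ζ : ℝ) (S : Finset (ℤ × ℕ)) : Finset ℕ :=
  A.filter (fun p : ℕ => ∀ L ∈ S, lf L p ≠ 0 ∧ ∀ l : ℕ, l.Prime → l ∣ (lf L p).natAbs →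
    (l : ℝ) < (N : ℝ) ^ ε₁ ∨ (N : ℝ) ^ ζ ≤ l)

/-- the core theorem -/
theorem core (hBLK : St_BLK) (hBHK : St_BHK) (k M : ℕ) (hk : 1 ≤ k) :
    ∃ ζ c : ℝ, 0 < ζ ∧ ζ ≤ 1 / 10 ∧ 0 < c ∧ ∀ ε₁ : ℝ, 0 < ε₁ → ε₁ < ζ →
    ∃ (η C : ℝ) (N₀ : ℕ), 0 < η ∧ 0 < C ∧ ∀ N : ℕ, N₀ ≤ N → ∀ A : Finset ℕ,
      (∀ p ∈ A, p.Prime ∧ p ≤ N) → (N : ℝ) ^ (1 - η) ≤ A.card →
      ∃ H : Finset (ℤ × ℕ), (H.card : ℝ) ≤ C * (N / (A.card * Real.log N)) ∧
        ∀ S, Sys k M N S → Disjoint S H → c * ε₁ ^ k * A.card ≤ (Sf A N ε₁ ζ S).card := by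
  classical
  obtain ⟨ζ, c, hζ, hζ2, hc, H1⟩ := sieveK hBHK k hk
  refine ⟨ζ, c / 4, hζ, hζ2, by positivity, fun ε₁ hε hεζ => ?_⟩
  obtain ⟨N₁, U, hU, H2⟩ := H1 ε₁ hε hεζ
  obtain ⟨κ, hκ, hκ2⟩ : ∃ κ : ℝ, 0 < κ ∧ U * κ = c * ε₁ ^ k / 2 :=
    ⟨c * ε₁ ^ k / (2 * U), by positivity, by field_simp⟩
  obtain ⟨η, C, N₂, hη, hC, H3⟩ := fewK hBLK k M hk hε hκ
  set W : ℝ := (k * M + k * k * (2 * M + 1)) / ε₁ * k * 2 + k with hW
  have hW0 : 0 ≤ W := by positivity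
  -- large `N`
  obtain ⟨N₄, hN₄⟩ : ∃ N₄ : ℕ, ∀ N : ℕ, N₄ ≤ N →
      W * (N : ℝ) ^ (1 - ε₁) ≤ c / 4 * ε₁ ^ k * (N : ℝ) ^ (1 - ε₁ / 2) := by
    have hlim : Tendsto (fun N : ℕ => W * (N : ℝ) ^ (-(ε₁ / 2))) atTop (nhds (W * 0)) :=
      ((tendsto_rpow_neg_atTop (by positivity : 0 < ε₁ / 2)).comp
        (tendsto_natCast_atTop_atTop (R := ℝ))).const_mul _
    rw [mul_zero] at hlim
    obtain ⟨M', hM'⟩ := Filter.eventually_atTop.1
      (hlim.eventually_le_const (show (0 : ℝ) < c / 4 * ε₁ ^ k by positivity))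
    refine ⟨max M' 2, fun N hN => ?_⟩
    have hN2 : 2 ≤ N := (le_max_right _ _).trans hN
    have hN0 : (0 : ℝ) < N := by exact_mod_cast (by omega : 0 < N)
    have h2 := hM' N ((le_max_left _ _).trans hN)
    have h3 : (N : ℝ) ^ (1 - ε₁) = (N : ℝ) ^ (-(ε₁ / 2)) * (N : ℝ) ^ (1 - ε₁ / 2) := by
      rw [← Real.rpow_add hN0]
      congr 1
      ring
    rw [h3, ← mul_assoc]
    gcongr
  refine ⟨min η (ε₁ / 2), C, max (max N₁ N₂) (max N₄ 2), lt_min hη (by positivity), hC, ?_⟩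
  intro N hN A hA hAc
  have hNN₁ : N₁ ≤ N := ((le_max_left _ _).trans (le_max_left _ _)).trans hN
  have hNN₂ : N₂ ≤ N := ((le_max_right _ _).trans (le_max_left _ _)).trans hN
  have hNN₄ : N₄ ≤ N := ((le_max_left _ _).trans (le_max_right _ _)).trans hN
  have hN2 : 2 ≤ N := ((le_max_right _ _).trans (le_max_right _ _)).trans hN
  have hN1 : (1 : ℝ) < N := by exact_mod_cast (by omega : 1 < N)
  have hN0 : (0 : ℝ) < N := by linarith
  have hAc1 : (N : ℝ) ^ (1 - η) ≤ A.card :=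
    le_trans (Real.rpow_le_rpow_of_exponent_le hN1.le (by linarith [min_le_left η (ε₁ / 2)])) hAc
  have hAc2 : (N : ℝ) ^ (1 - ε₁ / 2) ≤ A.card :=
    le_trans (Real.rpow_le_rpow_of_exponent_le hN1.le (by linarith [min_le_right η (ε₁ / 2)])) hAc
  obtain ⟨Hx, hH1, hH2⟩ := H3 N hNN₂ A hA hAc1
  refine ⟨Hx, hH1, fun S hS hSH => ?_⟩
  have hR := hH2 S hS hSH
  have hlow := H2 N hNN₁ A hA S
  -- the bad primes
  set B : Finset ℕ := (pr N ε₁ ζ).filter (fun l => ¬ gp S l) with hB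
  have hBp : ∀ l ∈ B, l.Prime ∧ (N : ℝ) ^ ε₁ ≤ l ∧ ¬ gp S l := by
    intro l hl
    rw [hB, mem_filter, mem_pr] at hl
    exact ⟨hl.1.2.1, (le_tt_iff hN2 hl.1.2.1.pos _).1 hl.1.2.2.1, hl.2⟩
  have hBc := badK k M hN2 hε S hS B hBp
  set Z1 : Finset ℕ := S.biUnion (fun L => A.filter (fun p : ℕ => lf L p = 0)) with hZ1
  set Z2 : Finset ℕ := (B ×ˢ S).biUnion (fun q => A.filter (fun p : ℕ =>
    (q.1 : ℤ) ∣ lf q.2 p ∧ ¬ q.1 ∣ q.2.2)) with hZ2
  have hZ1c : (Z1.card : ℝ) ≤ k := by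
    have h1 : Z1.card ≤ S.card * 1 := by
      apply Finset.card_biUnion_le_card_mul
      intro L hL
      apply Finset.card_le_one.2
      intro p hp q hq
      rw [mem_filter] at hp hq
      have h1 : (L.2 : ℤ) * ((p : ℤ) - q) = 0 := by
        have h4 : lf L p - lf L q = (L.2 : ℤ) * ((p : ℤ) - q) := by
          unfold lf
          ring
        rw [hp.2, hq.2, sub_zero] at h4
        exact h4.symm
      rcases mul_eq_zero.1 h1 with h2 | h2
      · exfalso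
        have h3 : L.2 = 0 := by exact_mod_cast h2
        have := (hS.fo L hL).b1
        omega
      · omega
    rw [hS.card, mul_one] at h1
    exact_mod_cast h1
  have hpow : (1 : ℝ) ≤ (N : ℝ) ^ (1 - ε₁) := Real.one_le_rpow hN1.le (by linarith)
  have hZ2c : (Z2.card : ℝ) ≤ (k * M + k * k * (2 * M + 1)) / ε₁ * k * (2 * (N : ℝ) ^ (1 - ε₁)) := by
    have h1 : (Z2.card : ℝ) ≤ ∑ _q ∈ B ×ˢ S, 2 * (N : ℝ) ^ (1 - ε₁) := by
      have h2 : Z2.card ≤ ∑ q ∈ B ×ˢ S, (A.filter (fun p : ℕ =>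
          (q.1 : ℤ) ∣ lf q.2 p ∧ ¬ q.1 ∣ q.2.2)).card := Finset.card_biUnion_le
      refine le_trans (by exact_mod_cast h2 : (Z2.card : ℝ) ≤ ∑ q ∈ B ×ˢ S, ((A.filter
        (fun p : ℕ => (q.1 : ℤ) ∣ lf q.2 p ∧ ¬ q.1 ∣ q.2.2)).card : ℝ)) ?_
      apply Finset.sum_le_sum
      rintro ⟨l, L⟩ hq
      rw [mem_product] at hq
      obtain ⟨hlp, hlN, -⟩ := hBp l hq.1
      simp only
      by_cases hlb : l ∣ L.2
      · have : A.filter (fun p : ℕ => (l : ℤ) ∣ lf L p ∧ ¬ l ∣ L.2) = ∅ := by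
          apply Finset.filter_eq_empty_iff.2
          intro p _ h
          exact h.2 hlb
        rw [this]
        simp only [card_empty, Nat.cast_zero]
        positivity
      · have h3 := one_class hlp.pos A (fun p hp => (hA p hp).2) L
          ((hlp.coprime_iff_not_dvd).2 hlb)
        have h4 : ((A.filter (fun p : ℕ => (l : ℤ) ∣ lf L p ∧ ¬ l ∣ L.2)).card : ℝ) ≤
            ((A.filter (fun p : ℕ => (l : ℤ) ∣ lf L p)).card : ℝ) := by
          exact_mod_cast Finset.card_le_card (fun p hp => by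
            rw [mem_filter] at hp ⊢
            exact ⟨hp.1, hp.2.1⟩)
        have h5 : (N : ℝ) / l ≤ (N : ℝ) ^ (1 - ε₁) := by
          rw [Real.rpow_sub hN0, Real.rpow_one]
          exact div_le_div_of_nonneg_left hN0.le (by positivity) hlN
        linarith
    rw [Finset.sum_const, nsmul_eq_mul, Finset.card_product, hS.card] at h1
    push_cast at h1
    refine h1.trans ?_
    gcongr
  -- the sum of the indicators
  have hsum : ∑ p ∈ A, PL.xx (PS N ε₁ ζ S) (Fp S p) ≤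
      ((Sf A N ε₁ ζ S).card : ℝ) + Z1.card + Z2.card := by
    have h1 : ∑ p ∈ A, PL.xx (PS N ε₁ ζ S) (Fp S p) =
        ((A.filter (fun p : ℕ => ∀ l ∈ PS N ε₁ ζ S, ¬ (l : ℤ) ∣ Fp S p)).card : ℝ) := by
      rw [Finset.card_filter]
      push_cast
      apply Finset.sum_congr rfl
      intro p _
      unfold PL.xx
      congr 1
    rw [h1]
    have h2 : A.filter (fun p : ℕ => ∀ l ∈ PS N ε₁ ζ S, ¬ (l : ℤ) ∣ Fp S p) ⊆
        (Sf A N ε₁ ζ S ∪ Z1) ∪ Z2 := by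
      intro p hp
      rw [mem_filter] at hp
      obtain ⟨hpA, hpx⟩ := hp
      by_contra hno
      rw [mem_union, mem_union, not_or, not_or] at hno
      obtain ⟨⟨n1, n2⟩, n3⟩ := hno
      apply n1
      unfold Sf
      rw [mem_filter]
      refine ⟨hpA, fun L hL => ?_⟩
      have hne : lf L p ≠ 0 := by
        intro h0
        exact n2 (mem_biUnion.2 ⟨L, hL, mem_filter.2 ⟨hpA, h0⟩⟩)
      refine ⟨hne, fun l hl hld => ?_⟩
      by_contra hcon
      rw [not_or, not_lt, not_le] at hcon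
      have hldi : (l : ℤ) ∣ lf L p := Int.natCast_dvd.2 hld
      have hlpr : l ∈ pr N ε₁ ζ := by
        rw [mem_pr]
        refine ⟨⟨hl.pos, ?_⟩, hl, (le_tt_iff hN2 hl.pos _).2 hcon.1,
          (tt_lt_iff hN2 hl.pos _).2 hcon.2⟩
        have h3 : (N : ℝ) ^ ζ ≤ N := by
          calc (N : ℝ) ^ ζ ≤ (N : ℝ) ^ (1 : ℝ) :=
                Real.rpow_le_rpow_of_exponent_le hN1.le (by linarith)
            _ = N := Real.rpow_one _
        exact_mod_cast (hcon.2.le.trans h3)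
      by_cases hg : gp S l
      · apply hpx l (by unfold PS; exact mem_filter.2 ⟨hlpr, hg⟩)
        unfold Fp
        exact hldi.trans (Finset.dvd_prod_of_mem (fun L => lf L (p : ℤ)) hL)
      · apply n3
        rw [hZ2, mem_biUnion]
        refine ⟨(l, L), mem_product.2 ⟨mem_filter.2 ⟨hlpr, hg⟩, hL⟩, ?_⟩
        rw [mem_filter]
        exact ⟨hpA, hldi, not_dvd_b (hS.fo L hL).cop hl hldi⟩
    have h3 := (Finset.card_le_card h2).trans (Finset.card_union_le _ _)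
    have h4 := Finset.card_union_le (Sf A N ε₁ ζ S) Z1
    have h5 : (A.filter (fun p : ℕ => ∀ l ∈ PS N ε₁ ζ S, ¬ (l : ℤ) ∣ Fp S p)).card ≤
        (Sf A N ε₁ ζ S).card + Z1.card + Z2.card := by omega
    exact_mod_cast h5
  have hUR : U * ∑ d ∈ TS N ε₁ S, |DK k (fA A) N S d| ≤ c * ε₁ ^ k / 2 * A.card := by
    calc _ ≤ U * (κ * A.card) := by gcongr
      _ = (U * κ) * A.card := by ring
      _ = _ := by rw [hκ2]
  have hN4 := hN₄ N hNN₄
  have hZ : (Z1.card : ℝ) + Z2.card ≤ W * (N : ℝ) ^ (1 - ε₁) := by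
    have h1 : (k : ℝ) ≤ k * (N : ℝ) ^ (1 - ε₁) := by
      have : (0 : ℝ) ≤ k := Nat.cast_nonneg _
      nlinarith
    have h2 : W * (N : ℝ) ^ (1 - ε₁) =
        (k * M + k * k * (2 * M + 1)) / ε₁ * k * (2 * (N : ℝ) ^ (1 - ε₁)) +
          k * (N : ℝ) ^ (1 - ε₁) := by
      rw [hW]
      ring
    rw [h2]
    linarith
  have h5 : c / 4 * ε₁ ^ k * (N : ℝ) ^ (1 - ε₁ / 2) ≤ c / 4 * ε₁ ^ k * A.card := by gcongr
  nlinarith

open Classical in
/-- the elements of `A` at which all forms are almost prime, small primes unrestricted -/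
noncomputable def G1 (A : Finset ℕ) (X : ℕ) (ε : ℝ) (r : ℕ) (S : Finset (ℤ × ℕ)) : Finset ℕ :=
  A.filter (fun p : ℕ => ∀ L ∈ S, L.1 + L.2 * (p : ℤ) ≠ 0 ∧
    ∃ m s : ℕ, (L.1 + L.2 * (p : ℤ)).natAbs = m * s ∧
      (∀ l : ℕ, l.Prime → l ∣ m → (l : ℝ) < (X : ℝ) ^ ε) ∧
      s.primeFactorsList.length ≤ r ∧ ∀ q ∈ s.primeFactors, (X : ℝ) ^ (1 / r : ℝ) ≤ q)

open Classical in
/-- the elements of `A` at which all forms are almost prime -/
noncomputable def G2 (A : Finset ℕ) (X : ℕ) (ε : ℝ) (r : ℕ) (S : Finset (ℤ × ℕ)) : Finset ℕ :=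
  A.filter (fun p : ℕ => ∀ L ∈ S,
    ∃ m s : ℕ, (L.1 + L.2 * (p : ℤ)).natAbs = m * s ∧ 1 ≤ m ∧ (m : ℝ) ≤ (X : ℝ) ^ ε ∧ 1 < s ∧
      s.primeFactorsList.length ≤ r ∧ ∀ q ∈ s.primeFactors, (X : ℝ) ^ (1 / r : ℝ) ≤ q)

/-- the structure of the values -/
theorem structK {M : ℕ} {ζ : ℝ} (hζ : 0 < ζ) (hζ1 : ζ ≤ 1 / 10) {r : ℕ} (hr : (M + 2) / ζ ≤ r)
    {N : ℕ} (hN : 2 ≤ N) {ε₁ : ℝ} {L : ℤ × ℕ} (hL : FoM M N L) {p : ℕ} (hp : p ≤ N)
    (h0 : lf L p ≠ 0) (hs : ∀ l : ℕ, l.Prime → l ∣ (lf L p).natAbs →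
      (l : ℝ) < (N : ℝ) ^ ε₁ ∨ (N : ℝ) ^ ζ ≤ l) :
    ∃ m s : ℕ, (lf L p).natAbs = m * s ∧ (∀ l : ℕ, l.Prime → l ∣ m → (l : ℝ) < (N : ℝ) ^ ε₁) ∧
      s.primeFactorsList.length ≤ r ∧ ∀ q ∈ s.primeFactors, (N : ℝ) ^ (1 / r : ℝ) ≤ q := by
  have hN1 : (1 : ℝ) < N := by exact_mod_cast (by omega : 1 < N)
  have hN0 : (0 : ℝ) < N := by linarith
  have hn0 : (lf L p).natAbs ≠ 0 := by
    rw [Ne, Int.natAbs_eq_zero]
    exact h0
  obtain ⟨m, s, h1, h2, h3, h4⟩ := decomp ((N : ℝ) ^ ζ) _ hn0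
  have hM2 : (0 : ℝ) < (M + 2) / ζ := by positivity
  have hr0 : (0 : ℝ) < r := lt_of_lt_of_le hM2 hr
  have hm0 : m ≠ 0 := by
    rintro rfl
    exact hn0 (by rw [h1, zero_mul])
  have hval : ((lf L p).natAbs : ℝ) ≤ (N : ℝ) ^ ((M : ℝ) + 2) := by
    have g1 : ((lf L p).natAbs : ℝ) = |(L.1 : ℝ) + L.2 * p| := by
      rw [Nat.cast_natAbs]
      unfold lf
      push_cast
      rfl
    have g2 : (p : ℝ) ≤ N := by exact_mod_cast hp
    have g3 : (N : ℝ) ^ ((M : ℝ) + 2) = (N : ℝ) ^ M * (N : ℝ) ^ 2 := by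
      rw [show ((M : ℝ) + 2) = ((M + 2 : ℕ) : ℝ) by push_cast; ring, Real.rpow_natCast, pow_add]
    have hN2r : (2 : ℝ) ≤ N := by exact_mod_cast hN
    rw [g1, g3]
    have hb0 : (0 : ℝ) ≤ (L.2 : ℝ) := Nat.cast_nonneg _
    calc |(L.1 : ℝ) + L.2 * p| ≤ |(L.1 : ℝ)| + |(L.2 : ℝ) * p| := abs_add_le _ _
      _ = |(L.1 : ℝ)| + (L.2 : ℝ) * p := by
          rw [abs_of_nonneg (by positivity : (0 : ℝ) ≤ (L.2 : ℝ) * p)]
      _ ≤ (N : ℝ) ^ M + (N : ℝ) ^ M * N := by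
          have := hL.a
          have := hL.b2
          gcongr
      _ = (N : ℝ) ^ M * (1 + N) := by ring
      _ ≤ (N : ℝ) ^ M * (N : ℝ) ^ 2 := by
          have h1N : 1 + (N : ℝ) ≤ (N : ℝ) ^ 2 := by nlinarith
          gcongr
  refine ⟨m, s, h1, ?_, ?_, ?_⟩
  · intro l hl hlm
    rcases hs l hl (h1 ▸ hlm.mul_right s) with h | h
    · exact h
    · have := h2 l hl hlm
      linarith
  · have h5 := h4 (by positivity)
    have h6 : (s : ℝ) ≤ (N : ℝ) ^ ((M : ℝ) + 2) := by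
      refine le_trans ?_ hval
      have : s ≤ (lf L p).natAbs := by
        rw [h1]
        exact Nat.le_mul_of_pos_left s (Nat.pos_of_ne_zero hm0)
      exact_mod_cast this
    have h7 := h5.trans h6
    rw [← Real.rpow_natCast, ← Real.rpow_mul hN0.le] at h7
    have h8 := (Real.rpow_le_rpow_left_iff hN1).1 h7
    have h9 : (s.primeFactorsList.length : ℝ) ≤ (M + 2) / ζ := by
      rw [le_div_iff₀ hζ]
      linarith
    exact_mod_cast h9.trans hr
  · intro q hq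
    refine le_trans (Real.rpow_le_rpow_of_exponent_le hN1.le ?_) (h3 q hq)
    rw [div_le_iff₀ hr0]
    have h10 : 1 ≤ (M + 2) / ζ * ζ := by
      rw [div_mul_cancel₀ _ hζ.ne']
      have : (0 : ℝ) ≤ M := Nat.cast_nonneg _
      linarith
    nlinarith

/-- **the sparse version** -/
theorem sparseK (hBLK : St_BLK) (hBHK : St_BHK) (k M : ℕ) (hk : 1 ≤ k) : ∃ r : ℕ, 1 ≤ r ∧
    ∀ ε : ℝ, 0 < ε → ∃ c C η : ℝ, 0 < c ∧ 0 < η ∧ ∀ X : ℕ, 2 ≤ X → ∀ A : Finset ℕ,
      (∀ p ∈ A, p.Prime ∧ p ≤ X) → (X : ℝ) ^ (1 - η) ≤ A.card →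
      ∃ H : Finset (ℤ × ℕ), (H.card : ℝ) ≤ C * (X / (A.card * Real.log X)) ∧
        ∀ S, Sys k M X S → Disjoint S H → c * A.card ≤ (G1 A X ε r S).card := by
  classical
  obtain ⟨ζ, c, hζ, hζ1, hc, H1⟩ := core hBLK hBHK k M hk
  set r : ℕ := ⌈((M : ℝ) + 2) / ζ⌉₊ with hr
  have hr1 : ((M : ℝ) + 2) / ζ ≤ r := Nat.le_ceil _
  have hr0 : 1 ≤ r := by
    rw [hr]
    exact Nat.ceil_pos.2 (by positivity)
  refine ⟨r, hr0, fun ε hε => ?_⟩
  set ε₁ := min ε (ζ / 2) with hε₁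
  have hε₁0 : 0 < ε₁ := lt_min hε (by positivity)
  have hε₁ζ : ε₁ < ζ := lt_of_le_of_lt (min_le_right _ _) (by linarith)
  have hε₁ε : ε₁ ≤ ε := min_le_left _ _
  obtain ⟨η, C, N₀, hη, hC, H2⟩ := H1 ε₁ hε₁0 hε₁ζ
  refine ⟨c * ε₁ ^ k, max C (((box M (N₀ + 2)).card : ℝ) * Real.log (N₀ + 2)), η, by positivity,
    hη, ?_⟩
  intro X hX A hA hAc
  have hX2 : (2 : ℝ) ≤ X := by exact_mod_cast hX
  have hX1 : (1 : ℝ) < X := by linarith
  have hX0 : (0 : ℝ) < X := by linarith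
  have hLX : 0 < Real.log X := Real.log_pos (by linarith)
  have hA0 : (0 : ℝ) < A.card := lt_of_lt_of_le (Real.rpow_pos_of_pos hX0 _) hAc
  have hAX : (A.card : ℝ) ≤ X := by
    have : A.card ≤ (Icc 1 X).card := Finset.card_le_card (fun p hp => by
      rw [mem_Icc]
      exact ⟨(hA p hp).1.pos, (hA p hp).2⟩)
    rw [Nat.card_Icc] at this
    exact_mod_cast (by omega : A.card ≤ X)
  rcases lt_or_ge X N₀ with hlt | hge
  · refine ⟨box M X, ?_, ?_⟩
    · have h1 : (1 : ℝ) ≤ Real.log (N₀ + 2) * (X / (A.card * Real.log X)) := by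
        rw [← mul_div_assoc, le_div_iff₀ (by positivity), one_mul]
        have h2 : Real.log X ≤ Real.log (N₀ + 2) := by
          apply Real.log_le_log hX0
          have : (X : ℝ) ≤ N₀ := by exact_mod_cast hlt.le
          linarith
        calc (A.card : ℝ) * Real.log X ≤ X * Real.log (N₀ + 2) := by gcongr
          _ = _ := by ring
      have h2 : ((box M X).card : ℝ) ≤ (box M (N₀ + 2)).card := by
        have hXN : X ≤ N₀ + 2 := by omega
        have h3 : (X : ℤ) ^ M ≤ ((N₀ + 2 : ℕ) : ℤ) ^ M :=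
          pow_le_pow_left₀ (by positivity) (by exact_mod_cast hXN) M
        have h4 : X ^ M ≤ (N₀ + 2) ^ M := Nat.pow_le_pow_left hXN M
        have : box M X ⊆ box M (N₀ + 2) := by
          unfold box
          apply Finset.product_subset_product
          · exact Finset.Icc_subset_Icc (by linarith) h3
          · exact Finset.Icc_subset_Icc le_rfl h4
        exact_mod_cast Finset.card_le_card this
      calc ((box M X).card : ℝ) ≤ (box M (N₀ + 2)).card * 1 := by rw [mul_one]; exact h2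
        _ ≤ (box M (N₀ + 2)).card * (Real.log (N₀ + 2) * (X / (A.card * Real.log X))) := by
            gcongr
        _ = ((box M (N₀ + 2)).card * Real.log (N₀ + 2)) * (X / (A.card * Real.log X)) := by ring
        _ ≤ _ := by
            gcongr
            exact le_max_right _ _
    · intro S hS hSH
      exfalso
      have hne : S.Nonempty := by
        rw [← Finset.card_pos, hS.card]
        omega
      obtain ⟨L, hL⟩ := hne
      exact Finset.disjoint_left.1 hSH hL (mem_box (hS.fo L hL))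
  · obtain ⟨H, hH1, hH2⟩ := H2 X hge A hA hAc
    refine ⟨H, hH1.trans ?_, fun S hS hSH => (hH2 S hS hSH).trans ?_⟩
    · gcongr
      exact le_max_left _ _
    · refine Nat.cast_le.2 (Finset.card_le_card ?_)
      intro p hp
      unfold Sf at hp
      rw [mem_filter] at hp
      unfold G1
      rw [mem_filter]
      refine ⟨hp.1, fun L hL => ?_⟩
      obtain ⟨g1, g2⟩ := hp.2 L hL
      obtain ⟨m, s, h1, h2, h3, h4⟩ := structK hζ hζ1 hr1 hX (hS.fo L hL) (hA p hp.1).2 g1 g2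
      exact ⟨g1, m, s, h1, fun l hl hlm => lt_of_lt_of_le (h2 l hl hlm)
        (Real.rpow_le_rpow_of_exponent_le hX1.le hε₁ε), h3, h4⟩

end Pool.Agent.W23.KT
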